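import Mathlib

/-!
The closed left submodule of the bounded `B`-valued functions generated by a bounded family.
-/

set_option autoImplicit false
set_option maxSynthPendingDepth 3

namespace Pool.Agent.Lib.MP_aa5e40_an

open ContinuousLinearMap Filter Topology BoundedContinuousFunction

universe u

noncomputable section

variable (B : Type u) [NormedRing B] [NormedAlgebra ℂ B] [CompleteSpace B]

/-- A Banach left `B`-module generated by vectors `e ξ` with prescribed coordinates. -/
structure GenMod (I D : Type u) (E : D → I → B) where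
  M : Type u
  [grp : NormedAddCommGroup M]
  [spc : NormedSpace ℂ M]
  [cpl : CompleteSpace M]
  act : B →L[ℂ] M →L[ℂ] M
  act_mul : ∀ a b x, act (a * b) x = act a (act b x)
  act_one : ∀ x, act 1 x = x
  e : D → M
  ev : I → M →L[ℂ] B
  ev_act : ∀ i b m, ev i (act b m) = b * ev i m
  ev_e : ∀ i ξ, ev i (e ξ) = E ξ i
  norm_ev : ∀ i, ‖ev i‖ ≤ 1
  norm_le : ∀ (m : M) (C : ℝ), 0 ≤ C → (∀ i, ‖ev i m‖ ≤ C) → ‖m‖ ≤ C
  ind : ∀ p : M → Prop, IsClosed {m | p m} → p 0 → (∀ b ξ, p (act b (e ξ))) →
    (∀ s t, p s → p t → p (s + t)) → ∀ m, p m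

attribute [instance] GenMod.grp GenMod.spc GenMod.cpl

/-- A type with the discrete topology. -/
def Disc (I : Type u) : Type u := I

instance (I : Type u) : TopologicalSpace (Disc I) := ⊥
instance (I : Type u) : DiscreteTopology (Disc I) := ⟨rfl⟩

theorem nonempty_genMod (I D : Type u) (E : D → I → B) (hE : ∀ ξ i, ‖E ξ i‖ ≤ 1) :
    Nonempty (GenMod B I D E) := by
  let e0 : D → (Disc I →ᵇ B) := fun ξ =>
    ofNormedAddCommGroupDiscrete (α := Disc I) (fun i => E ξ i) 1 (hE ξ)
  let S : Submodule B (Disc I →ᵇ B) := (Submodule.span B (Set.range e0)).topologicalClosure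
  have hS : IsClosed (S : Set (Disc I →ᵇ B)) := Submodule.isClosed_topologicalClosure _
  have : CompleteSpace S := hS.completeSpace_coe
  have : IsBoundedSMul B S := IsBoundedSMul.of_norm_smul_le fun r x =>
    norm_smul_le r (x : Disc I →ᵇ B)
  have hmem : ∀ ξ, e0 ξ ∈ S := fun ξ =>
    Submodule.le_topologicalClosure _ (Submodule.subset_span ⟨ξ, rfl⟩)
  let val : S →L[ℂ] (Disc I →ᵇ B) :=
    { toFun := Subtype.val
      map_add' := fun _ _ => rfl
      map_smul' := fun _ _ => rfl
      cont := continuous_subtype_val }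
  refine ⟨
    { M := S
      act := lsmul ℂ B
      act_mul := fun a b x => by simp [mul_smul]
      act_one := fun x => by simp
      e := fun ξ => ⟨e0 ξ, hmem ξ⟩
      ev := fun i => (evalCLM ℂ (show Disc I from i)).comp val
      ev_act := fun i b m => rfl
      ev_e := fun i ξ => rfl
      norm_ev := fun i => ?_
      norm_le := fun m C hC h => ?_
      ind := fun p hc h0 ht ha m => ?_ }⟩
  · refine opNorm_le_bound _ zero_le_one fun m => ?_
    rw [one_mul]
    exact (m : Disc I →ᵇ B).norm_coe_le_norm i
  · exact (BoundedContinuousFunction.norm_le hC).2 h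
  · obtain ⟨t, htm⟩ := m
    have hcl : IsClosed ((fun s : S => (s : Disc I →ᵇ B)) '' {t | p t}) :=
      hS.isClosedEmbedding_subtypeVal.isClosedMap _ hc
    have hsub : ((Submodule.span B (Set.range e0) : Submodule B (Disc I →ᵇ B)) :
        Set (Disc I →ᵇ B)) ⊆ (fun s : S => (s : Disc I →ᵇ B)) '' {t | p t} := by
      intro x hx
      have key : ∀ c : B, c • x ∈ (fun s : S => (s : Disc I →ᵇ B)) '' {t | p t} := by
        induction hx using Submodule.span_induction with
        | mem y hy =>
          obtain ⟨ξ, rfl⟩ := hy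
          intro c
          exact ⟨_, ht c ξ, rfl⟩
        | zero => intro c; exact ⟨0, h0, by simp⟩
        | add y z _ _ hy hz =>
          intro c
          obtain ⟨s, hs, hs'⟩ := hy c
          obtain ⟨r, hr, hr'⟩ := hz c
          refine ⟨s + r, ha _ _ hs hr, ?_⟩
          simp only at hs' hr' ⊢
          rw [Submodule.coe_add, hs', hr', smul_add]
        | smul a y _ hy =>
          intro c
          rw [smul_smul]
          exact hy _
      simpa using key 1
    have : t ∈ (fun s : S => (s : Disc I →ᵇ B)) '' {t | p t} :=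
      closure_minimal hsub hcl htm
    obtain ⟨s, hs, hs'⟩ := this
    have : s = ⟨t, htm⟩ := Subtype.ext hs'
    rw [← this]
    exact hs

end

end Pool.Agent.Lib.MP_aa5e40_an
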