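import Mathlib

/-!
Definitions for the homological theory of Banach algebras (Helemskii):
Banach left modules, Banach bimodules, relative projectivity, admissible projective
resolutions, homological dimension, global dimension and bidimension.
-/

set_option autoImplicit false

namespace Pool.Agent.Lib.MP_aa5e40_an

universe u

/-- A category whose objects have an underlying complex normed space `X o` and whose morphisms
are those bounded linear maps that satisfy `IsHom`.  It is used below only for the category of
Banach left `A`-modules and for the category of Banach `A`-bimodules, so that the homological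
definitions, which are word for word the same in both, are written once. -/
structure ModCat where
  Obj : Type (u + 1)
  X : Obj → Type u
  [grp : ∀ o, NormedAddCommGroup (X o)]
  [spc : ∀ o, NormedSpace ℂ (X o)]
  IsHom : ∀ o o' : Obj, (X o →L[ℂ] X o') → Prop

attribute [instance] ModCat.grp ModCat.spc

/-- `P` is projective: every morphism `φ : Y → P` that has a bounded linear right inverse has a
right inverse that is a morphism. -/
def ModCat.Projective (C : ModCat.{u}) (P : C.Obj) : Prop :=
  ∀ (Y : C.Obj) (φ : C.X Y →L[ℂ] C.X P), C.IsHom Y P φ →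
    (∃ r : C.X P →L[ℂ] C.X Y, φ.comp r = ContinuousLinearMap.id ℂ (C.X P)) →
    ∃ s : C.X P →L[ℂ] C.X Y, C.IsHom P Y s ∧ φ.comp s = ContinuousLinearMap.id ℂ (C.X P)

/-- A projective resolution `0 ← M ← P 0 ← P 1 ← ⋯` of `M`: a complex of projective objects and
morphisms that is admissible, i.e. has a bounded linear contracting homotopy. -/
structure ModCat.ProjRes (C : ModCat.{u}) (M : C.Obj) where
  P : ℕ → C.Obj
  proj : ∀ k, C.Projective (P k)
  aug : C.X (P 0) →L[ℂ] C.X M
  d : ∀ k, C.X (P (k + 1)) →L[ℂ] C.X (P k)
  aug_hom : C.IsHom (P 0) M aug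
  d_hom : ∀ k, C.IsHom (P (k + 1)) (P k) (d k)
  aug_d : aug.comp (d 0) = 0
  d_d : ∀ k, (d k).comp (d (k + 1)) = 0
  admissible : ∃ (t : C.X M →L[ℂ] C.X (P 0)) (s : ∀ k, C.X (P k) →L[ℂ] C.X (P (k + 1))),
    aug.comp t = ContinuousLinearMap.id ℂ (C.X M) ∧
    (d 0).comp (s 0) + t.comp aug = ContinuousLinearMap.id ℂ (C.X (P 0)) ∧
    ∀ k, (d (k + 1)).comp (s (k + 1)) + (s k).comp (d k) =
      ContinuousLinearMap.id ℂ (C.X (P (k + 1)))

/-- The homological dimension of `M`: the least `n` such that `M` has a projective resolution
with `P k = 0` for all `k > n`, and `∞` if there is none. -/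
noncomputable def ModCat.dh (C : ModCat.{u}) (M : C.Obj) : ℕ∞ :=
  sInf {m : ℕ∞ | ∃ n : ℕ, m = n ∧
    ∃ R : C.ProjRes M, ∀ k, n < k → ∀ x : C.X (R.P k), x = 0}

section

variable (A : Type u) [NonUnitalNormedRing A] [NormedSpace ℂ A]

/-- A Banach left `A`-module: a complex Banach space with a continuous bilinear associative
action `(a, x) ↦ act a x`. -/
structure LMod where
  X : Type u
  [grp : NormedAddCommGroup X]
  [spc : NormedSpace ℂ X]
  [cpl : CompleteSpace X]
  act : A →L[ℂ] X →L[ℂ] X
  act_mul : ∀ a b x, act (a * b) x = act a (act b x)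

attribute [instance] LMod.grp LMod.spc LMod.cpl

/-- A Banach `A`-bimodule: a Banach left module with, in addition, a continuous bilinear
associative right action `(x, a) ↦ ract a x` commuting with the left action. -/
structure BiMod extends LMod A where
  ract : A →L[ℂ] X →L[ℂ] X
  ract_mul : ∀ a b x, ract (a * b) x = ract b (ract a x)
  act_ract : ∀ a b x, act a (ract b x) = ract b (act a x)

/-- The category `A`-mod of Banach left `A`-modules and bounded module maps. -/
abbrev leftCat : ModCat.{u} where
  Obj := LMod A
  X := fun M => M.X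
  IsHom := fun M N f => ∀ a x, f (M.act a x) = N.act a (f x)

/-- The category `A`-mod-`A` of Banach `A`-bimodules and bounded bimodule maps. -/
abbrev biCat : ModCat.{u} where
  Obj := BiMod A
  X := fun M => M.X
  IsHom := fun M N f =>
    (∀ a x, f (M.act a x) = N.act a (f x)) ∧ (∀ a x, f (M.ract a x) = N.ract a (f x))

/-- The left global dimension of `A`: the supremum of the homological dimensions of all Banach
left `A`-modules. -/
noncomputable def dg : ℕ∞ := ⨆ M : LMod A, (leftCat A).dh M

variable [IsScalarTower ℂ A A] [SMulCommClass ℂ A A]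

/-- The unitization `A₊ = ℂ ⊕ A` with the norm `|λ| + ‖a‖`. -/
abbrev Plus : Type u := WithLp 1 (Unitization ℂ A)

/-- The inclusion `A → A₊`. -/
noncomputable def incl : A →L[ℂ] Plus A :=
  LinearMap.mkContinuous
    { toFun := fun a => WithLp.toLp 1 (a : Unitization ℂ A)
      map_add' := fun a b => by simp [WithLp.toLp_add]
      map_smul' := fun c a => by simp [WithLp.toLp_smul] }
    1 (fun a => by simp [WithLp.unitization_norm_inr])

theorem incl_mul (a b : A) : incl A (a * b) = incl A a * incl A b := by
  apply (WithLp.equiv 1 (Unitization ℂ A)).injective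
  simp [incl]

/-- `A₊` as a Banach `A`-bimodule, with the actions given by multiplication in `A₊`. -/
noncomputable def plusBiMod [CompleteSpace A] : BiMod A where
  X := Plus A
  act := (ContinuousLinearMap.mul ℂ (Plus A)).comp (incl A)
  act_mul := fun a b x => by simp [incl_mul, mul_assoc]
  ract := (ContinuousLinearMap.mul ℂ (Plus A)).flip.comp (incl A)
  ract_mul := fun a b x => by simp [incl_mul, mul_assoc]
  act_ract := fun a b x => by simp [mul_assoc]

/-- The bidimension of `A`: the homological dimension of the bimodule `A₊`. -/
noncomputable def db [CompleteSpace A] : ℕ∞ := (biCat A).dh (plusBiMod A)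

end

end Pool.Agent.Lib.MP_aa5e40_an
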