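import Mathlib
import Pool.Agent.Lib.MP_aa5e40_an.Defs

-- part Pool.Agent.Lib.MP_aa5e40_an.Homol
section

/-!
Relative homological algebra in a `ModCat` with kernels, products and a zero object:
lifting property, syzygies, and the characterisation of the homological dimension by the
projectivity of a syzygy.
-/

set_option autoImplicit false
set_option maxSynthPendingDepth 3

namespace Pool.Agent.Lib.MP_aa5e40_an

open ContinuousLinearMap

universe u

noncomputable section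

namespace ModCat

variable (C : ModCat.{u})

/-- An admissible short exact sequence `0 → K → P → M → 0` together with its splitting. -/
structure SES (K P M : C.Obj) where
  j : C.X K →L[ℂ] C.X P
  e : C.X P →L[ℂ] C.X M
  r : C.X P →L[ℂ] C.X K
  s : C.X M →L[ℂ] C.X P
  j_hom : C.IsHom K P j
  e_hom : C.IsHom P M e
  rj : ∀ x, r (j x) = x
  es : ∀ x, e (s x) = x
  jr : ∀ x, j (r x) = x - s (e x)

/-- The closure properties used in the homological lemmas. -/
structure Nice : Prop where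
  hom_id : ∀ M, C.IsHom M M (ContinuousLinearMap.id ℂ (C.X M))
  hom_zero : ∀ M N, C.IsHom M N 0
  hom_comp : ∀ {M N P} {f : C.X M →L[ℂ] C.X N} {g : C.X N →L[ℂ] C.X P},
    C.IsHom N P g → C.IsHom M N f → C.IsHom M P (g.comp f)
  hom_add : ∀ {M N} {f g : C.X M →L[ℂ] C.X N}, C.IsHom M N f → C.IsHom M N g → C.IsHom M N (f + g)
  hom_sub : ∀ {M N} {f g : C.X M →L[ℂ] C.X N}, C.IsHom M N f → C.IsHom M N g → C.IsHom M N (f - g)
  hom_of_inj : ∀ {M N P} {f : C.X M →L[ℂ] C.X N} {g : C.X N →L[ℂ] C.X P},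
    C.IsHom N P g → Function.Injective g → C.IsHom M P (g.comp f) → C.IsHom M N f
  ker : ∀ (P M : C.Obj) (e : C.X P →L[ℂ] C.X M) (s : C.X M →L[ℂ] C.X P), C.IsHom P M e →
    (∀ x, e (s x) = x) → ∃ (K : C.Obj) (S : C.SES K P M), S.e = e ∧ S.s = s
  prod : ∀ Y P : C.Obj, ∃ (W : C.Obj) (fst : C.X W →L[ℂ] C.X Y) (snd : C.X W →L[ℂ] C.X P)
    (inl : C.X Y →L[ℂ] C.X W) (inr : C.X P →L[ℂ] C.X W), C.IsHom W Y fst ∧ C.IsHom W P snd ∧
      (∀ y, fst (inl y) = y) ∧ (∀ y, snd (inl y) = 0) ∧ (∀ p, fst (inr p) = 0) ∧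
      (∀ p, snd (inr p) = p)
  zero : ∃ Z : C.Obj, ∀ x : C.X Z, x = 0

/-- The lifting property. -/
def Lift (P : C.Obj) : Prop :=
  ∀ (Y Z : C.Obj) (φ : C.X Y →L[ℂ] C.X Z) (σ : C.X Z →L[ℂ] C.X Y), C.IsHom Y Z φ →
    (∀ z, φ (σ z) = z) → ∀ f : C.X P →L[ℂ] C.X Z, C.IsHom P Z f →
      ∃ g : C.X P →L[ℂ] C.X Y, C.IsHom P Y g ∧ ∀ p, φ (g p) = f p

def HasRes (n : ℕ) (M : C.Obj) : Prop :=
  ∃ R : C.ProjRes M, ∀ k, n < k → ∀ x : C.X (R.P k), x = 0

/-- `Y` is an `n`-th syzygy of `M`. -/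
def Syz : ℕ → C.Obj → C.Obj → Prop
  | 0, M, Y => M = Y
  | n + 1, M, Y => ∃ K F : C.Obj, Nonempty (C.SES K F M) ∧ C.Lift F ∧ Syz n K Y

/-- `M` is a retract of `N` up to a map factoring through an object with the lifting
property. -/
def SR (M N : C.Obj) : Prop :=
  ∃ (f : C.X M →L[ℂ] C.X N) (g : C.X N →L[ℂ] C.X M) (Q : C.Obj) (u : C.X M →L[ℂ] C.X Q)
    (w : C.X Q →L[ℂ] C.X M), C.IsHom M N f ∧ C.IsHom N M g ∧ C.Lift Q ∧ C.IsHom M Q u ∧
      C.IsHom Q M w ∧ ∀ x, w (u x) = x - g (f x)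

variable {C}

theorem SES.ej {K P M : C.Obj} (S : C.SES K P M) (x : C.X K) : S.e (S.j x) = 0 := by
  have h : S.e (S.j (S.r (S.j x))) = 0 := by
    rw [S.jr, map_sub, S.es, sub_self]
  rwa [S.rj] at h

theorem SES.j_inj {K P M : C.Obj} (S : C.SES K P M) : Function.Injective S.j :=
  fun x y h => by rw [← S.rj x, h, S.rj]

theorem SES.jr_of {K P M : C.Obj} (S : C.SES K P M) {x : C.X P} (h : S.e x = 0) :
    S.j (S.r x) = x := by rw [S.jr, h, map_zero, sub_zero]

theorem SES.hom_r_comp (hC : C.Nice) {K P M Y : C.Obj} (S : C.SES K P M)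
    {f : C.X Y →L[ℂ] C.X P} (hf : C.IsHom Y P f) (h : ∀ y, S.e (f y) = 0) :
    C.IsHom Y K (S.r.comp f) := by
  refine hC.hom_of_inj S.j_hom S.j_inj ?_
  have : S.j.comp (S.r.comp f) = f := by
    ext y
    exact S.jr_of (h y)
  rwa [this]

theorem projective_of_lift (hC : C.Nice) {P : C.Obj} (h : C.Lift P) : C.Projective P := by
  rintro Y φ hφ ⟨r, hr⟩
  obtain ⟨g, hg, hg'⟩ := h Y P φ r hφ (fun z => congr($hr z)) _ (hC.hom_id P)
  exact ⟨g, hg, by ext p; exact hg' p⟩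

theorem lift_of_projective (hC : C.Nice) {P : C.Obj} (h : C.Projective P) : C.Lift P := by
  intro Y Z φ σ hφ hσ f hf
  obtain ⟨W, fst, snd, inl, inr, hfst, hsnd, h1, h2, h3, h4⟩ := hC.prod Y P
  obtain ⟨K, S, hSe, hSs⟩ := hC.ker W Z (φ.comp fst - f.comp snd) (inl.comp σ)
    (hC.hom_sub (hC.hom_comp hφ hfst) (hC.hom_comp hf hsnd)) (fun x => by simp [h1, h2, hσ])
  obtain ⟨t, ht, ht'⟩ := h K (snd.comp S.j) (hC.hom_comp hsnd S.j_hom)
    ⟨S.r.comp (inl.comp (σ.comp f) + inr), by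
      ext p
      have : S.e (inl (σ (f p)) + inr p) = 0 := by
        rw [hSe]
        simp [h1, h2, h3, h4, hσ]
      change snd (S.j (S.r (inl (σ (f p)) + inr p))) = p
      rw [S.jr_of this]
      simp [h2, h4]⟩
  refine ⟨fst.comp (S.j.comp t), hC.hom_comp hfst (hC.hom_comp S.j_hom ht), fun p => ?_⟩
  have h5 := S.ej (t p)
  rw [hSe] at h5
  have h6 : snd (S.j (t p)) = p := congr($ht' p)
  simp only [sub_apply, comp_apply, h6] at h5
  exact sub_eq_zero.1 h5

theorem lift_of_retract (hC : C.Nice) {P Q : C.Obj} (hQ : C.Lift Q) (i : C.X P →L[ℂ] C.X Q)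
    (p : C.X Q →L[ℂ] C.X P) (hi : C.IsHom P Q i) (hp : C.IsHom Q P p) (h : ∀ x, p (i x) = x) :
    C.Lift P := by
  intro Y Z φ σ hφ hσ f hf
  obtain ⟨g, hg, hg'⟩ := hQ Y Z φ σ hφ hσ (f.comp p) (hC.hom_comp hf hp)
  exact ⟨g.comp i, hC.hom_comp hg hi, fun x => by simp [hg', h]⟩

theorem hasRes_zero (hC : C.Nice) {M : C.Obj} (h : C.Projective M) : C.HasRes 0 M := by
  obtain ⟨Z, hZ⟩ := hC.zero
  have hZp : C.Projective Z := fun Y φ _ _ =>
    ⟨0, hC.hom_zero _ _, by ext x; rw [hZ x]; simp⟩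
  let P : ℕ → C.Obj := fun k => match k with
    | 0 => M
    | _ + 1 => Z
  refine ⟨
    { P := P
      proj := fun k => match k with
        | 0 => h
        | _ + 1 => hZp
      aug := ContinuousLinearMap.id ℂ (C.X M)
      d := fun _ => 0
      aug_hom := hC.hom_id M
      d_hom := fun _ => hC.hom_zero _ _
      aug_d := by simp
      d_d := fun _ => by simp
      admissible := ⟨ContinuousLinearMap.id ℂ (C.X M), fun _ => 0, rfl, ?_, fun k => ?_⟩ }, ?_⟩
  · ext x
    simp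
    rfl
  · ext x
    exact (hZ _).trans (hZ _).symm
  · intro k hk
    match k, hk with
    | k + 1, _ => exact hZ

theorem hasRes_succ (hC : C.Nice) {n : ℕ} {K F M : C.Obj} (S : C.SES K F M)
    (hF : C.Projective F) (h : C.HasRes n K) : C.HasRes (n + 1) M := by
  obtain ⟨R, hR⟩ := h
  obtain ⟨t, s, h1, h2, h3⟩ := R.admissible
  let P : ℕ → C.Obj := fun k => match k with
    | 0 => F
    | k + 1 => R.P k
  let d : ∀ k, C.X (P (k + 1)) →L[ℂ] C.X (P k) := fun k => match k with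
    | 0 => S.j.comp R.aug
    | k + 1 => R.d k
  let s' : ∀ k, C.X (P k) →L[ℂ] C.X (P (k + 1)) := fun k => match k with
    | 0 => t.comp S.r
    | k + 1 => s k
  refine ⟨
    { P := P
      proj := fun k => match k with
        | 0 => hF
        | k + 1 => R.proj k
      aug := S.e
      d := d
      aug_hom := S.e_hom
      d_hom := fun k => match k with
        | 0 => hC.hom_comp S.j_hom R.aug_hom
        | k + 1 => R.d_hom k
      aug_d := by
        ext x
        exact S.ej _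
      d_d := fun k => match k with
        | 0 => by
          ext x
          have : R.aug (R.d 0 x) = 0 := congr($R.aug_d x)
          change S.j (R.aug (R.d 0 x)) = 0
          rw [this, map_zero]
        | k + 1 => R.d_d k
      admissible := ⟨S.s, s', ?_, ?_, fun k => match k with
        | 0 => ?_
        | k + 1 => h3 k⟩ }, ?_⟩
  · ext x
    exact S.es x
  · ext x
    have : R.aug (t (S.r x)) = S.r x := congr($h1 (S.r x))
    change S.j (R.aug (t (S.r x))) + S.s (S.e x) = x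
    rw [this, S.jr, sub_add_cancel]
  · ext x
    change R.d 0 (s 0 x) + t (S.r (S.j (R.aug x))) = x
    rw [S.rj]
    exact congr($h2 x)
  · intro k hk
    match k, hk with
    | k + 1, hk => exact hR k (by omega)

theorem hasRes_of_syz (hC : C.Nice) : ∀ (n : ℕ) (M Y : C.Obj), C.Syz n M Y → C.Projective Y →
    C.HasRes n M
  | 0, M, Y, h, hY => by
    obtain rfl : M = Y := h
    exact hasRes_zero hC hY
  | n + 1, M, Y, h, hY => by
    obtain ⟨K, F, ⟨S⟩, hF, hK⟩ := h
    exact hasRes_succ hC S (projective_of_lift hC hF) (hasRes_of_syz hC n K Y hK hY)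

theorem sr_refl (hC : C.Nice) (M : C.Obj) : C.SR M M := by
  obtain ⟨Z, hZ⟩ := hC.zero
  refine ⟨ContinuousLinearMap.id ℂ _, ContinuousLinearMap.id ℂ _, Z, 0, 0, hC.hom_id _,
    hC.hom_id _, ?_, hC.hom_zero _ _, hC.hom_zero _ _, fun x => by simp⟩
  intro Y W φ σ _ _ f _
  exact ⟨0, hC.hom_zero _ _, fun p => by rw [hZ p]; simp⟩

theorem sr_step (hC : C.Nice) {K F M K' F' M' : C.Obj} (S : C.SES K F M) (S' : C.SES K' F' M')
    (hF : C.Lift F) (hF' : C.Lift F') (h : C.SR M M') : C.SR K K' := by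
  obtain ⟨f, g, Q, u, w, hf, hg, hQ, hu, hw, huw⟩ := h
  obtain ⟨f', hf', hff⟩ := hF F' M' S'.e S'.s S'.e_hom S'.es (f.comp S.e) (hC.hom_comp hf S.e_hom)
  obtain ⟨g', hg', hgg⟩ := hF' F M S.e S.s S.e_hom S.es (g.comp S'.e) (hC.hom_comp hg S'.e_hom)
  obtain ⟨w', hw', hww⟩ := hQ F M S.e S.s S.e_hom S.es w hw
  have e1 : ∀ y, S'.e (f' (S.j y)) = 0 := fun y => by simp [hff, S.ej]
  have e2 : ∀ y, S.e (g' (S'.j y)) = 0 := fun y => by simp [hgg, S'.ej]
  have e3 : ∀ y, S.e ((ContinuousLinearMap.id ℂ (C.X F) - g'.comp f' -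
      w'.comp (u.comp S.e)) y) = 0 := fun y => by
    simp [hgg, hff, hww, huw]
  refine ⟨S'.r.comp (f'.comp S.j), S.r.comp (g'.comp S'.j), F, S.j,
    S.r.comp (ContinuousLinearMap.id ℂ (C.X F) - g'.comp f' - w'.comp (u.comp S.e)),
    S'.hom_r_comp hC (hC.hom_comp hf' S.j_hom) e1,
    S.hom_r_comp hC (hC.hom_comp hg' S'.j_hom) e2, hF, S.j_hom,
    S.hom_r_comp hC (hC.hom_sub (hC.hom_sub (hC.hom_id _) (hC.hom_comp hg' hf'))
      (hC.hom_comp hw' (hC.hom_comp hu S.e_hom))) e3, fun x => ?_⟩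
  simp [S.ej, S.rj, S'.jr_of (e1 x)]

theorem hasRes_uncons (hC : C.Nice) {n : ℕ} {M : C.Obj} (h : C.HasRes (n + 1) M) :
    ∃ K F : C.Obj, Nonempty (C.SES K F M) ∧ C.Lift F ∧ C.HasRes n K := by
  obtain ⟨R, hR⟩ := h
  obtain ⟨t, s, h1, h2, h3⟩ := R.admissible
  obtain ⟨K, S, hSe, hSs⟩ := hC.ker (R.P 0) M R.aug t R.aug_hom (fun x => congr($h1 x))
  have e1 : ∀ y, S.e (R.d 0 y) = 0 := fun y => by
    rw [hSe]
    exact congr($R.aug_d y)
  refine ⟨K, R.P 0, ⟨S⟩, lift_of_projective hC (R.proj 0),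
    { P := fun k => R.P (k + 1)
      proj := fun k => R.proj (k + 1)
      aug := S.r.comp (R.d 0)
      d := fun k => R.d (k + 1)
      aug_hom := S.hom_r_comp hC (R.d_hom 0) e1
      d_hom := fun k => R.d_hom (k + 1)
      aug_d := ?_
      d_d := fun k => R.d_d (k + 1)
      admissible := ⟨(s 0).comp S.j, fun k => s (k + 1), ?_, ?_, fun k => h3 (k + 1)⟩ },
    fun k hk => hR (k + 1) (by omega)⟩
  · ext x
    have : R.d 0 (R.d 1 x) = 0 := congr($(R.d_d 0) x)
    simp [this]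
  · ext x
    have h4 : R.d 0 (s 0 (S.j x)) + t (R.aug (S.j x)) = S.j x := congr($h2 (S.j x))
    have h5 : R.aug (S.j x) = 0 := by rw [← hSe]; exact S.ej x
    rw [h5, map_zero, add_zero] at h4
    simp [h4, S.rj]
  · ext x
    have h4 : R.d 1 (s 1 x) + s 0 (R.d 0 x) = x := congr($(h3 0) x)
    simpa [S.jr_of (e1 x)] using h4

theorem projective_of_sr_zero (hC : C.Nice) {M M' : C.Obj} (h : C.SR M M')
    (h' : C.HasRes 0 M') : C.Projective M := by
  obtain ⟨f, g, Q, u, w, hf, hg, hQ, hu, hw, huw⟩ := h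
  obtain ⟨R, hR⟩ := h'
  obtain ⟨t, s, h1, h2, -⟩ := R.admissible
  have e1 : ∀ x, t (R.aug x) = x := fun x => by
    have h4 : R.d 0 (s 0 x) + t (R.aug x) = x := congr($h2 x)
    rwa [hR 1 one_pos (s 0 x), map_zero, zero_add] at h4
  have ht : C.IsHom M' (R.P 0) t := by
    refine hC.hom_of_inj R.aug_hom (fun x y hxy => by rw [← e1 x, hxy, e1]) ?_
    rw [h1]
    exact hC.hom_id _
  rintro Y φ hφ ⟨r, hr⟩
  obtain ⟨w', hw', hww⟩ := hQ Y M φ r hφ (fun z => congr($hr z)) w hw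
  obtain ⟨g', hg', hgg⟩ := lift_of_projective hC (R.proj 0) Y M φ r hφ (fun z => congr($hr z))
    (g.comp R.aug) (hC.hom_comp hg R.aug_hom)
  refine ⟨w'.comp u + g'.comp (t.comp f),
    hC.hom_add (hC.hom_comp hw' hu) (hC.hom_comp hg' (hC.hom_comp ht hf)), ?_⟩
  ext x
  have : R.aug (t (f x)) = f x := congr($h1 (f x))
  simp [hww, hgg, huw, this]

theorem projective_of_syz (hC : C.Nice) : ∀ (n : ℕ) (M Y M' : C.Obj), C.Syz n M Y → C.SR M M' →
    C.HasRes n M' → C.Projective Y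
  | 0, M, Y, M', h, hs, hr => by
    obtain rfl : M = Y := h
    exact projective_of_sr_zero hC hs hr
  | n + 1, M, Y, M', h, hs, hr => by
    obtain ⟨K, F, ⟨S⟩, hF, hK⟩ := h
    obtain ⟨K', F', ⟨S'⟩, hF', hK'⟩ := hasRes_uncons hC hr
    exact projective_of_syz hC n K Y K' hK (sr_step hC S S' hF hF' hs) hK'

theorem dh_le_iff_hasRes (M : C.Obj) (n : ℕ) : C.dh M ≤ n ↔ C.HasRes n M := by
  constructor
  · intro h
    by_contra hn
    have : ((n + 1 : ℕ) : ℕ∞) ≤ C.dh M := by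
      refine le_sInf ?_
      rintro m ⟨k, rfl, R, hR⟩
      have hk : n + 1 ≤ k := by
        by_contra hk
        exact hn ⟨R, fun l hl => hR l (by omega)⟩
      exact_mod_cast hk
    have h2 : ((n + 1 : ℕ) : ℕ∞) ≤ (n : ℕ∞) := this.trans h
    have h3 : n + 1 ≤ n := by exact_mod_cast h2
    omega
  · intro h
    exact sInf_le ⟨n, rfl, h⟩

theorem dh_le_iff_projective (hC : C.Nice) {M Y : C.Obj} {n : ℕ} (h : C.Syz n M Y) :
    C.dh M ≤ n ↔ C.Projective Y := by
  rw [dh_le_iff_hasRes]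
  exact ⟨projective_of_syz hC n M Y M h (sr_refl hC M), hasRes_of_syz hC n M Y h⟩

end ModCat

end

end Pool.Agent.Lib.MP_aa5e40_an
end

-- part Pool.Agent.Lib.MP_aa5e40_an.PT
section

/-!
The completed projective tensor product of two complex normed spaces, realised as the closed
span of the evaluations inside the dual of the space of bounded bilinear forms.
-/

set_option autoImplicit false
set_option maxSynthPendingDepth 3

namespace Pool.Agent.Lib.MP_aa5e40_an

open ContinuousLinearMap Filter Topology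

universe u

noncomputable section

theorem isClosed_tendsto_zero {ι X G : Type*} [NormedAddCommGroup X] [NormedSpace ℂ X]
    [NormedAddCommGroup G] [NormedSpace ℂ G] {l : Filter ι} (g : ι → X →L[ℂ] G) (C : ℝ)
    (hC : ∀ i, ‖g i‖ ≤ C) : IsClosed {t | Tendsto (fun i => g i t) l (𝓝 0)} := by
  refine isClosed_of_closure_subset fun t ht => ?_
  simp only [Set.mem_ofPred_eq]
  rw [Metric.tendsto_nhds]
  intro ε hε
  obtain ⟨s, hs, hst⟩ := Metric.mem_closure_iff.1 ht (ε / (2 * (|C| + 1))) (by positivity)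
  have hs' := (Metric.tendsto_nhds.1 hs) (ε / 2) (by positivity)
  filter_upwards [hs'] with i hi
  rw [dist_zero_right] at hi ⊢
  have h1 : g i t = g i s + g i (t - s) := by simp
  have h2 : ‖g i (t - s)‖ ≤ (|C| + 1) * (ε / (2 * (|C| + 1))) := by
    refine ((g i).le_opNorm _).trans ?_
    rw [dist_eq_norm] at hst
    gcongr
    linarith [hC i, le_abs_self C]
  have h3 : (|C| + 1) * (ε / (2 * (|C| + 1))) = ε / 2 := by
    field_simp
  rw [h1]
  calc ‖g i s + g i (t - s)‖ ≤ ‖g i s‖ + ‖g i (t - s)‖ := norm_add_le _ _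
    _ < ε / 2 + ε / 2 := by linarith
    _ = ε := by ring

variable (E F : Type u) [NormedAddCommGroup E] [NormedSpace ℂ E]
  [NormedAddCommGroup F] [NormedSpace ℂ F]

abbrev Bil : Type u := E →L[ℂ] F →L[ℂ] ℂ

def ev0 : E →L[ℂ] F →L[ℂ] (Bil E F →L[ℂ] ℂ) :=
  ((compL ℂ (Bil E F) (F →L[ℂ] ℂ) ℂ).comp (ContinuousLinearMap.apply ℂ ℂ)).flip.comp
    (ContinuousLinearMap.apply ℂ (F →L[ℂ] ℂ))

@[simp] theorem ev0_apply (e : E) (f : F) (β : Bil E F) : ev0 E F e f β = β e f := by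
  simp [ev0]

theorem norm_ev0_le (e : E) (f : F) : ‖ev0 E F e f‖ ≤ ‖e‖ * ‖f‖ := by
  refine opNorm_le_bound _ (by positivity) fun β => ?_
  rw [ev0_apply]
  calc ‖β e f‖ ≤ ‖β‖ * ‖e‖ * ‖f‖ := β.le_opNorm₂ e f
    _ = ‖e‖ * ‖f‖ * ‖β‖ := by ring

def ptSub : Submodule ℂ (Bil E F →L[ℂ] ℂ) :=
  (Submodule.span ℂ (Set.range fun p : E × F => ev0 E F p.1 p.2)).topologicalClosure

/-- The completed projective tensor product. -/
def PT : Type u := ptSub E F

instance : NormedAddCommGroup (PT E F) := inferInstanceAs (NormedAddCommGroup (ptSub E F))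
instance : NormedSpace ℂ (PT E F) := inferInstanceAs (NormedSpace ℂ (ptSub E F))
instance : CompleteSpace (PT E F) :=
  (Submodule.isClosed_topologicalClosure _).completeSpace_coe

namespace PT

def val : PT E F →L[ℂ] (Bil E F →L[ℂ] ℂ) := (ptSub E F).subtypeL

theorem norm_val (t : PT E F) : ‖val E F t‖ = ‖t‖ := rfl

theorem ev0_mem (e : E) (f : F) : ev0 E F e f ∈ ptSub E F :=
  Submodule.le_topologicalClosure _ (Submodule.subset_span ⟨(e, f), rfl⟩)

def tmul : E →L[ℂ] F →L[ℂ] PT E F :=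
  LinearMap.mkContinuous₂
    (LinearMap.mk₂ ℂ (fun e f => (⟨ev0 E F e f, ev0_mem E F e f⟩ : ptSub E F))
      (fun a b f => Subtype.ext (by
        change ev0 E F (a + b) f = ev0 E F a f + ev0 E F b f
        simp))
      (fun c a f => Subtype.ext (by
        change ev0 E F (c • a) f = c • ev0 E F a f
        simp))
      (fun a f g => Subtype.ext (by
        change ev0 E F a (f + g) = ev0 E F a f + ev0 E F a g
        simp))
      (fun c a f => Subtype.ext (by
        change ev0 E F a (c • f) = c • ev0 E F a f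
        simp)))
    1 (fun e f => by
      have := norm_ev0_le E F e f
      rw [one_mul]
      exact this)

theorem val_tmul (e : E) (f : F) : val E F (tmul E F e f) = ev0 E F e f := rfl

variable {E F}

theorem norm_tmul_le (e : E) (f : F) : ‖tmul E F e f‖ ≤ ‖e‖ * ‖f‖ := norm_ev0_le E F e f

theorem induction_on {p : PT E F → Prop} (t : PT E F) (hc : IsClosed {t | p t})
    (h0 : p 0) (ht : ∀ e f, p (tmul E F e f)) (ha : ∀ s t, p s → p t → p (s + t)) : p t := by
  obtain ⟨t, htm⟩ := t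
  have hcl : IsClosed ((fun s : PT E F => val E F s) '' {t | p t}) := by
    have hemb : IsClosedEmbedding (fun s : ptSub E F => (s : Bil E F →L[ℂ] ℂ)) :=
      (Submodule.isClosed_topologicalClosure _).isClosedEmbedding_subtypeVal
    exact hemb.isClosedMap _ hc
  have hsub : ((Submodule.span ℂ (Set.range fun p : E × F => ev0 E F p.1 p.2) :
      Submodule ℂ (Bil E F →L[ℂ] ℂ)) : Set (Bil E F →L[ℂ] ℂ)) ⊆
      (fun s : PT E F => val E F s) '' {t | p t} := by
    intro x hx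
    have key : ∀ c : ℂ, c • x ∈ (fun s : PT E F => val E F s) '' {t | p t} := by
      induction hx using Submodule.span_induction with
      | mem y hy =>
        obtain ⟨⟨e, f⟩, rfl⟩ := hy
        intro c
        exact ⟨tmul E F (c • e) f, ht _ _, by simp [val_tmul]⟩
      | zero => intro c; exact ⟨0, h0, by simp⟩
      | add y z _ _ hy hz =>
        intro c
        obtain ⟨s, hs, hs'⟩ := hy c
        obtain ⟨r, hr, hr'⟩ := hz c
        refine ⟨s + r, ha _ _ hs hr, ?_⟩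
        simp only at hs' hr' ⊢
        rw [map_add, hs', hr', smul_add]
      | smul a y _ hy =>
        intro c
        rw [smul_smul]
        exact hy _
    simpa using key 1
  have : t ∈ (fun s : PT E F => val E F s) '' {t | p t} :=
    closure_minimal hsub hcl htm
  obtain ⟨s, hs, hs'⟩ := this
  have : s = ⟨t, htm⟩ := Subtype.ext hs'
  rw [← this]
  exact hs

variable {G : Type*} [NormedAddCommGroup G] [NormedSpace ℂ G]

theorem hom_ext {g h : PT E F →L[ℂ] G} (H : ∀ e f, g (tmul E F e f) = h (tmul E F e f)) :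
    g = h := by
  ext t
  induction t using induction_on with
  | hc => exact isClosed_eq g.continuous h.continuous
  | h0 => simp
  | ht e f => exact H e f
  | ha s t hs ht => simp [hs, ht]

/-- The map into the bidual used to define `lift`. -/
def lift0 (φ : E →L[ℂ] F →L[ℂ] G) :
    PT E F →L[ℂ] StrongDual ℂ (StrongDual ℂ G) :=
  (((compL ℂ (StrongDual ℂ G) (Bil E F) ℂ).flip
    (((compL ℂ E (F →L[ℂ] G) (F →L[ℂ] ℂ)).flip φ).comp (compL ℂ F G ℂ)))).comp (val E F)

theorem lift0_apply (φ : E →L[ℂ] F →L[ℂ] G) (t : PT E F) (g : StrongDual ℂ G) :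
    lift0 φ t g = val E F t ((compL ℂ F G ℂ g).comp φ) := by
  simp [lift0]

theorem lift0_tmul (φ : E →L[ℂ] F →L[ℂ] G) (e : E) (f : F) :
    lift0 φ (tmul E F e f) = NormedSpace.inclusionInDoubleDualLi ℂ (φ e f) := by
  ext g
  rw [lift0_apply, val_tmul]
  simp [NormedSpace.inclusionInDoubleDualLi]

theorem norm_lift0_le (φ : E →L[ℂ] F →L[ℂ] G) (t : PT E F) : ‖lift0 φ t‖ ≤ ‖φ‖ * ‖t‖ := by
  refine opNorm_le_bound _ (by positivity) fun g => ?_
  rw [lift0_apply]
  have h1 : ‖(compL ℂ F G ℂ g).comp φ‖ ≤ ‖g‖ * ‖φ‖ := by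
    refine opNorm_le_bound₂ _ (by positivity) fun e f => ?_
    calc ‖((compL ℂ F G ℂ g).comp φ) e f‖ = ‖g (φ e f)‖ := by simp
      _ ≤ ‖g‖ * ‖φ e f‖ := g.le_opNorm _
      _ ≤ ‖g‖ * (‖φ‖ * ‖e‖ * ‖f‖) := by gcongr; exact φ.le_opNorm₂ e f
      _ = ‖g‖ * ‖φ‖ * ‖e‖ * ‖f‖ := by ring
  calc ‖val E F t ((compL ℂ F G ℂ g).comp φ)‖ ≤ ‖val E F t‖ * ‖(compL ℂ F G ℂ g).comp φ‖ :=
        (val E F t).le_opNorm _
    _ ≤ ‖t‖ * (‖g‖ * ‖φ‖) := by rw [norm_val]; gcongr
    _ = ‖φ‖ * ‖t‖ * ‖g‖ := by ring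

variable [CompleteSpace G]

theorem lift0_mem (φ : E →L[ℂ] F →L[ℂ] G) (t : PT E F) :
    lift0 φ t ∈ LinearMap.range (NormedSpace.inclusionInDoubleDualLi (E := G) ℂ).toLinearMap := by
  induction t using induction_on with
  | hc =>
    have : IsClosed (Set.range (NormedSpace.inclusionInDoubleDualLi (E := G) ℂ)) :=
      (NormedSpace.inclusionInDoubleDualLi (E := G) ℂ).isometry.isClosedEmbedding.isClosed_range
    exact this.preimage (lift0 φ).continuous
  | h0 => simp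
  | ht e f => exact ⟨φ e f, (lift0_tmul φ e f).symm⟩
  | ha s t hs ht => rw [map_add]; exact add_mem hs ht

/-- The universal property of the projective tensor product. -/
def lift (φ : E →L[ℂ] F →L[ℂ] G) : PT E F →L[ℂ] G :=
  ((NormedSpace.inclusionInDoubleDualLi (E := G) ℂ).equivRange.symm.toContinuousLinearEquiv :
    _ →L[ℂ] G).comp ((lift0 φ).codRestrict _ (lift0_mem φ))

theorem incl_lift (φ : E →L[ℂ] F →L[ℂ] G) (t : PT E F) :
    NormedSpace.inclusionInDoubleDualLi ℂ (lift φ t) = lift0 φ t := by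
  have := (NormedSpace.inclusionInDoubleDualLi (E := G) ℂ).equivRange.apply_symm_apply
    ⟨lift0 φ t, lift0_mem φ t⟩
  exact congrArg Subtype.val this

@[simp] theorem lift_tmul (φ : E →L[ℂ] F →L[ℂ] G) (e : E) (f : F) :
    lift φ (tmul E F e f) = φ e f := by
  apply (NormedSpace.inclusionInDoubleDualLi (E := G) ℂ).injective
  rw [incl_lift, lift0_tmul]

theorem norm_lift_le (φ : E →L[ℂ] F →L[ℂ] G) : ‖lift φ‖ ≤ ‖φ‖ := by
  refine opNorm_le_bound _ (norm_nonneg _) fun t => ?_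
  rw [← (NormedSpace.inclusionInDoubleDualLi (E := G) ℂ).norm_map, incl_lift]
  exact norm_lift0_le φ t

variable {E' F' : Type u} [NormedAddCommGroup E'] [NormedSpace ℂ E']
  [NormedAddCommGroup F'] [NormedSpace ℂ F']

theorem norm_tmul_bilinearComp_le (g : E →L[ℂ] E') (h : F →L[ℂ] F') :
    ‖(tmul E' F').bilinearComp g h‖ ≤ ‖g‖ * ‖h‖ := by
  refine opNorm_le_bound₂ _ (by positivity) fun e f => ?_
  rw [bilinearComp_apply]
  calc ‖tmul E' F' (g e) (h f)‖ ≤ ‖g e‖ * ‖h f‖ := norm_tmul_le _ _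
    _ ≤ (‖g‖ * ‖e‖) * (‖h‖ * ‖f‖) := by
      gcongr
      · exact g.le_opNorm e
      · exact h.le_opNorm f
    _ = ‖g‖ * ‖h‖ * ‖e‖ * ‖f‖ := by ring

variable (E F E' F') in
/-- Functoriality of the projective tensor product, as a bounded bilinear map. -/
def map : (E →L[ℂ] E') →L[ℂ] (F →L[ℂ] F') →L[ℂ] (PT E F →L[ℂ] PT E' F') :=
  LinearMap.mkContinuous₂
    (LinearMap.mk₂ ℂ (fun g h => lift ((tmul E' F').bilinearComp g h))
      (fun a b f => hom_ext fun e x => by simp)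
      (fun c a f => hom_ext fun e x => by simp)
      (fun a f g => hom_ext fun e x => by simp)
      (fun c a f => hom_ext fun e x => by simp))
    1 (fun g h => by
      have := (norm_lift_le ((tmul E' F').bilinearComp g h)).trans
        (norm_tmul_bilinearComp_le g h)
      simpa using this)

@[simp] theorem map_tmul (g : E →L[ℂ] E') (h : F →L[ℂ] F') (e : E) (f : F) :
    map E F E' F' g h (tmul E F e f) = tmul E' F' (g e) (h f) := by
  simp [map]

theorem norm_map_le (g : E →L[ℂ] E') (h : F →L[ℂ] F') : ‖map E F E' F' g h‖ ≤ ‖g‖ * ‖h‖ :=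
  (norm_lift_le ((tmul E' F').bilinearComp g h)).trans (norm_tmul_bilinearComp_le g h)

omit [CompleteSpace G] in
/-- A uniformly bounded family of operators on the tensor product that tends to zero on the
elementary tensors tends to zero pointwise. -/
theorem tendsto_zero_of_tmul {ι : Type*} {l : Filter ι} (g : ι → PT E F →L[ℂ] G) (C : ℝ)
    (hC : ∀ i, ‖g i‖ ≤ C) (h : ∀ e f, Tendsto (fun i => g i (tmul E F e f)) l (𝓝 0))
    (t : PT E F) : Tendsto (fun i => g i t) l (𝓝 0) := by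
  induction t using induction_on with
  | hc => exact isClosed_tendsto_zero g C hC
  | h0 => simpa using tendsto_const_nhds
  | ht e f => exact h e f
  | ha s t hs ht => simpa using hs.add ht

end PT

end

end Pool.Agent.Lib.MP_aa5e40_an
end

-- part Pool.Agent.Lib.MP_aa5e40_an.Mods
section

/-!
Kernels, products, free modules and syzygy functors for Banach modules and bimodules.
-/

set_option autoImplicit false
set_option maxSynthPendingDepth 3

namespace Pool.Agent.Lib.MP_aa5e40_an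

open ContinuousLinearMap Filter Topology

universe u

noncomputable section

section Ker

variable {P X P' X' : Type u} [NormedAddCommGroup P] [NormedSpace ℂ P]
  [NormedAddCommGroup X] [NormedSpace ℂ X] [NormedAddCommGroup P'] [NormedSpace ℂ P']
  [NormedAddCommGroup X'] [NormedSpace ℂ X']

/-- The kernel of a bounded map, as a normed space. -/
def Ker (e : P →L[ℂ] X) : Type u := LinearMap.ker (e : P →ₗ[ℂ] X)

instance (e : P →L[ℂ] X) : NormedAddCommGroup (Ker e) :=
  inferInstanceAs (NormedAddCommGroup (LinearMap.ker (e : P →ₗ[ℂ] X)))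
instance (e : P →L[ℂ] X) : NormedSpace ℂ (Ker e) :=
  inferInstanceAs (NormedSpace ℂ (LinearMap.ker (e : P →ₗ[ℂ] X)))
instance [CompleteSpace P] (e : P →L[ℂ] X) : CompleteSpace (Ker e) :=
  (ContinuousLinearMap.isClosed_ker e).completeSpace_coe

def kj (e : P →L[ℂ] X) : Ker e →L[ℂ] P := (LinearMap.ker (e : P →ₗ[ℂ] X)).subtypeL

def kr (e : P →L[ℂ] X) (s : X →L[ℂ] P) (h : ∀ x, e (s x) = x) : P →L[ℂ] Ker e :=
  (ContinuousLinearMap.id ℂ P - s.comp e).codRestrict (LinearMap.ker (e : P →ₗ[ℂ] X))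
    (fun x => by simp [h])

theorem kj_inj (e : P →L[ℂ] X) : Function.Injective (kj e) := Subtype.val_injective

theorem e_kj (e : P →L[ℂ] X) (x : Ker e) : e (kj e x) = 0 := x.2

theorem kj_kr (e : P →L[ℂ] X) (s : X →L[ℂ] P) (h : ∀ x, e (s x) = x) (x : P) :
    kj e (kr e s h x) = x - s (e x) := rfl

theorem kj_kr_of (e : P →L[ℂ] X) (s : X →L[ℂ] P) (h : ∀ x, e (s x) = x) {x : P} (hx : e x = 0) :
    kj e (kr e s h x) = x := by rw [kj_kr, hx, map_zero, sub_zero]

theorem kr_kj (e : P →L[ℂ] X) (s : X →L[ℂ] P) (h : ∀ x, e (s x) = x) (x : Ker e) :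
    kr e s h (kj e x) = x := kj_inj e (kj_kr_of e s h (e_kj e x))

/-- Compression of operators to kernels. -/
def kcomp (e : P →L[ℂ] X) (e' : P' →L[ℂ] X') (s' : X' →L[ℂ] P') (h' : ∀ x, e' (s' x) = x) :
    (P →L[ℂ] P') →L[ℂ] (Ker e →L[ℂ] Ker e') :=
  (compL ℂ (Ker e) P' (Ker e') (kr e' s' h')).comp ((compL ℂ (Ker e) P P').flip (kj e))

theorem kcomp_apply (e : P →L[ℂ] X) (e' : P' →L[ℂ] X') (s' : X' →L[ℂ] P')
    (h' : ∀ x, e' (s' x) = x) (g : P →L[ℂ] P') (x : Ker e) :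
    kcomp e e' s' h' g x = kr e' s' h' (g (kj e x)) := rfl

theorem kj_kcomp (e : P →L[ℂ] X) (e' : P' →L[ℂ] X') (s' : X' →L[ℂ] P')
    (h' : ∀ x, e' (s' x) = x) (g : P →L[ℂ] P') (g' : X →L[ℂ] X') (hg : ∀ y, e' (g y) = g' (e y))
    (x : Ker e) : kj e' (kcomp e e' s' h' g x) = g (kj e x) := by
  rw [kcomp_apply, kj_kr_of]
  rw [hg, e_kj, map_zero]

end Ker

variable {A : Type u} [NonUnitalNormedRing A] [NormedSpace ℂ A]

/-- The kernel of an admissible epimorphism of left modules. -/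
abbrev LMod.ker (P M : LMod A) (e : P.X →L[ℂ] M.X) (s : M.X →L[ℂ] P.X)
    (he : (leftCat A).IsHom P M e) (hs : ∀ x, e (s x) = x) : LMod A where
  X := Ker e
  act := (kcomp e e s hs).comp P.act
  act_mul := fun a b x => by
    apply kj_inj e
    simp only [comp_apply]
    rw [kj_kcomp e e s hs _ _ (he _), kj_kcomp e e s hs _ _ (he _), kj_kcomp e e s hs _ _ (he _),
      P.act_mul]

theorem LMod.kj_act (P M : LMod A) (e : P.X →L[ℂ] M.X) (s : M.X →L[ℂ] P.X)
    (he : (leftCat A).IsHom P M e) (hs : ∀ x, e (s x) = x) (a : A) (x : Ker e) :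
    kj e ((LMod.ker P M e s he hs).act a x) = P.act a (kj e x) :=
  kj_kcomp e e s hs _ _ (he _) x

/-- The kernel of an admissible epimorphism of bimodules. -/
abbrev BiMod.ker (P M : BiMod A) (e : P.X →L[ℂ] M.X) (s : M.X →L[ℂ] P.X)
    (he : (biCat A).IsHom P M e) (hs : ∀ x, e (s x) = x) : BiMod A where
  toLMod := LMod.ker P.toLMod M.toLMod e s he.1 hs
  ract := (kcomp e e s hs).comp P.ract
  ract_mul := fun a b x => by
    apply kj_inj e
    simp only [comp_apply]
    rw [kj_kcomp e e s hs _ _ (he.2 _), kj_kcomp e e s hs _ _ (he.2 _),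
      kj_kcomp e e s hs _ _ (he.2 _), P.ract_mul]
  act_ract := fun a b x => by
    apply kj_inj e
    simp only [comp_apply]
    rw [kj_kcomp e e s hs _ _ (he.1 _), kj_kcomp e e s hs _ _ (he.2 _),
      kj_kcomp e e s hs _ _ (he.2 _), kj_kcomp e e s hs _ _ (he.1 _), P.act_ract]

theorem BiMod.kj_ract (P M : BiMod A) (e : P.X →L[ℂ] M.X) (s : M.X →L[ℂ] P.X)
    (he : (biCat A).IsHom P M e) (hs : ∀ x, e (s x) = x) (a : A) (x : Ker e) :
    kj e ((BiMod.ker P M e s he hs).ract a x) = P.ract a (kj e x) :=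
  kj_kcomp e e s hs _ _ (he.2 _) x

def LMod.kerSES (P M : LMod A) (e : P.X →L[ℂ] M.X) (s : M.X →L[ℂ] P.X)
    (he : (leftCat A).IsHom P M e) (hs : ∀ x, e (s x) = x) :
    (leftCat A).SES (LMod.ker P M e s he hs) P M where
  j := kj e
  e := e
  r := kr e s hs
  s := s
  j_hom := LMod.kj_act P M e s he hs
  e_hom := he
  rj := kr_kj e s hs
  es := hs
  jr := kj_kr e s hs

def BiMod.kerSES (P M : BiMod A) (e : P.X →L[ℂ] M.X) (s : M.X →L[ℂ] P.X)
    (he : (biCat A).IsHom P M e) (hs : ∀ x, e (s x) = x) :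
    (biCat A).SES (BiMod.ker P M e s he hs) P M where
  j := kj e
  e := e
  r := kr e s hs
  s := s
  j_hom := ⟨LMod.kj_act P.toLMod M.toLMod e s he.1 hs, BiMod.kj_ract P M e s he hs⟩
  e_hom := he
  rj := kr_kj e s hs
  es := hs
  jr := kj_kr e s hs

def LMod.prod (Y P : LMod A) : LMod A where
  X := Y.X × P.X
  act := (prodMapL ℂ Y.X Y.X P.X P.X).comp (Y.act.prod P.act)
  act_mul := fun a b x => by simp [Y.act_mul, P.act_mul, Prod.map]

def BiMod.prod (Y P : BiMod A) : BiMod A where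
  toLMod := LMod.prod Y.toLMod P.toLMod
  ract := (prodMapL ℂ Y.X Y.X P.X P.X).comp (Y.ract.prod P.ract)
  ract_mul := fun a b x => Prod.ext (Y.ract_mul a b x.1) (P.ract_mul a b x.2)
  act_ract := fun a b x => Prod.ext (Y.act_ract a b x.1) (P.act_ract a b x.2)

variable (A) in
def LMod.zero : LMod A where
  X := PUnit
  act := 0
  act_mul := fun _ _ _ => rfl

variable (A) in
def BiMod.zero : BiMod A where
  toLMod := LMod.zero A
  ract := 0
  ract_mul := fun _ _ _ => rfl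
  act_ract := fun _ _ _ => rfl

variable (A) in
theorem nice_left : (leftCat A).Nice where
  hom_id := fun _ _ _ => rfl
  hom_zero := fun _ _ _ _ => by simp
  hom_comp := fun hg hf a x => by simp [hf a x, hg a]
  hom_add := fun hf hg a x => by simp [hf a x, hg a x]
  hom_sub := fun hf hg a x => by simp [hf a x, hg a x]
  hom_of_inj := fun hg hi h a x => hi ((h a x).trans (hg a _).symm)
  ker := fun P M e s he hs => ⟨_, LMod.kerSES P M e s he hs, rfl, rfl⟩
  prod := fun Y P => ⟨LMod.prod Y P, fst ℂ Y.X P.X, snd ℂ Y.X P.X, inl ℂ Y.X P.X, inr ℂ Y.X P.X,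
    fun _ _ => rfl, fun _ _ => rfl, fun _ => rfl, fun _ => rfl, fun _ => rfl, fun _ => rfl⟩
  zero := ⟨LMod.zero A, fun _ => rfl⟩

variable (A) in
theorem nice_bi : (biCat A).Nice where
  hom_id := fun _ => ⟨fun _ _ => rfl, fun _ _ => rfl⟩
  hom_zero := fun _ _ => ⟨fun _ _ => by simp, fun _ _ => by simp⟩
  hom_comp := fun hg hf => ⟨fun a x => by simp [hf.1 a x, hg.1 a],
    fun a x => by simp [hf.2 a x, hg.2 a]⟩
  hom_add := fun hf hg => ⟨fun a x => by simp [hf.1 a x, hg.1 a x],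
    fun a x => by simp [hf.2 a x, hg.2 a x]⟩
  hom_sub := fun hf hg => ⟨fun a x => by simp [hf.1 a x, hg.1 a x],
    fun a x => by simp [hf.2 a x, hg.2 a x]⟩
  hom_of_inj := fun hg hi h => ⟨fun a x => hi ((h.1 a x).trans (hg.1 a _).symm),
    fun a x => hi ((h.2 a x).trans (hg.2 a _).symm)⟩
  ker := fun P M e s he hs => ⟨_, BiMod.kerSES P M e s he hs, rfl, rfl⟩
  prod := fun Y P => ⟨BiMod.prod Y P, fst ℂ Y.X P.X, snd ℂ Y.X P.X, inl ℂ Y.X P.X, inr ℂ Y.X P.X,
    ⟨fun _ _ => rfl, fun _ _ => rfl⟩, ⟨fun _ _ => rfl, fun _ _ => rfl⟩,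
    fun _ => rfl, fun _ => rfl, fun _ => rfl, fun _ => rfl⟩
  zero := ⟨BiMod.zero A, fun _ => rfl⟩

variable [IsScalarTower ℂ A A] [SMulCommClass ℂ A A]

variable (A) in
def fstL : Plus A →L[ℂ] ℂ :=
  LinearMap.mkContinuous
    { toFun := fun b => (WithLp.ofLp b).fst
      map_add' := fun a b => by simp
      map_smul' := fun c a => by simp }
    1 (fun b => by simp [WithLp.unitization_norm_def])

variable (A) in
def sndL : Plus A →L[ℂ] A :=
  LinearMap.mkContinuous
    { toFun := fun b => (WithLp.ofLp b).snd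
      map_add' := fun a b => by simp
      map_smul' := fun c a => by simp }
    1 (fun b => by simp [WithLp.unitization_norm_def])

theorem ofLp_one : WithLp.ofLp (1 : Plus A) = 1 := rfl

@[simp] theorem fstL_one : fstL A 1 = 1 := by simp [fstL, ofLp_one]
@[simp] theorem sndL_one : sndL A 1 = 0 := by simp [sndL, ofLp_one]
@[simp] theorem fstL_incl (a : A) : fstL A (incl A a) = 0 := by simp [fstL, incl]
@[simp] theorem sndL_incl (a : A) : sndL A (incl A a) = a := by simp [sndL, incl]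

theorem norm_one_plus : ‖(1 : Plus A)‖ ≤ 1 := by
  simp [WithLp.unitization_norm_def, ofLp_one]

theorem plus_cases (b : Plus A) : ∃ (c : ℂ) (a : A), b = c • (1 : Plus A) + incl A a := by
  refine ⟨(WithLp.ofLp b).fst, (WithLp.ofLp b).snd, ?_⟩
  apply (WithLp.equiv 1 (Unitization ℂ A)).injective
  ext <;> simp [incl, ofLp_one]

section Ext

variable {X : Type u} [NormedAddCommGroup X] [NormedSpace ℂ X]

/-- Extension of an action of `A` to the unitization. -/
def plusExt (ρ : A →L[ℂ] X →L[ℂ] X) : Plus A →L[ℂ] X →L[ℂ] X :=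
  (fstL A).smulRight (ContinuousLinearMap.id ℂ X) + ρ.comp (sndL A)

@[simp] theorem plusExt_one (ρ : A →L[ℂ] X →L[ℂ] X) (x : X) : plusExt ρ 1 x = x := by
  simp [plusExt]

@[simp] theorem plusExt_incl (ρ : A →L[ℂ] X →L[ℂ] X) (a : A) : plusExt ρ (incl A a) = ρ a := by
  simp [plusExt]

theorem plusExt_comm {Y : Type u} [NormedAddCommGroup Y] [NormedSpace ℂ Y]
    (ρ : A →L[ℂ] X →L[ℂ] X) (ρ' : A →L[ℂ] Y →L[ℂ] Y) (f : X →L[ℂ] Y)
    (h : ∀ a x, f (ρ a x) = ρ' a (f x)) (b : Plus A) (x : X) :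
    f (plusExt ρ b x) = plusExt ρ' b (f x) := by
  obtain ⟨c, a, rfl⟩ := plus_cases b
  simp [h]

theorem plusExt_incl_mul (ρ : A →L[ℂ] X →L[ℂ] X) (h : ∀ a b x, ρ (a * b) x = ρ a (ρ b x))
    (a : A) (b : Plus A) (x : X) : plusExt ρ (incl A a * b) x = ρ a (plusExt ρ b x) := by
  obtain ⟨c, a', rfl⟩ := plus_cases b
  simp [mul_add, ← incl_mul, h]

theorem plusExt_mul_incl (ρ : A →L[ℂ] X →L[ℂ] X) (h : ∀ a b x, ρ (a * b) x = ρ a (ρ b x))
    (a : A) (b : Plus A) (x : X) : plusExt ρ (b * incl A a) x = plusExt ρ b (ρ a x) := by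
  obtain ⟨c, a', rfl⟩ := plus_cases b
  simp [add_mul, ← incl_mul, h]

theorem plusExt_mul_incl' (ρ : A →L[ℂ] X →L[ℂ] X) (h : ∀ a b x, ρ (a * b) x = ρ b (ρ a x))
    (a : A) (b : Plus A) (x : X) : plusExt ρ (b * incl A a) x = ρ a (plusExt ρ b x) := by
  obtain ⟨c, a', rfl⟩ := plus_cases b
  simp [add_mul, ← incl_mul, h]

end Ext

variable [CompleteSpace A]

/-- The functor `A₊ ⊗ -` on bounded maps. -/
def Tmap (X Y : Type u) [NormedAddCommGroup X] [NormedSpace ℂ X] [NormedAddCommGroup Y]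
    [NormedSpace ℂ Y] : (X →L[ℂ] Y) →L[ℂ] (PT (Plus A) X →L[ℂ] PT (Plus A) Y) :=
  PT.map (Plus A) X (Plus A) Y (ContinuousLinearMap.id ℂ (Plus A))

omit [CompleteSpace A] in
@[simp] theorem Tmap_tmul {X Y : Type u} [NormedAddCommGroup X] [NormedSpace ℂ X]
    [NormedAddCommGroup Y] [NormedSpace ℂ Y] (h : X →L[ℂ] Y) (b : Plus A) (x : X) :
    Tmap X Y h (PT.tmul (Plus A) X b x) = PT.tmul (Plus A) Y b (h x) := by
  simp [Tmap]

/-- The left action on `A₊ ⊗ X`. -/
def Tact (X : Type u) [NormedAddCommGroup X] [NormedSpace ℂ X] :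
    A →L[ℂ] PT (Plus A) X →L[ℂ] PT (Plus A) X :=
  ((PT.map (Plus A) X (Plus A) X).flip (ContinuousLinearMap.id ℂ X)).comp
    ((ContinuousLinearMap.mul ℂ (Plus A)).comp (incl A))

omit [CompleteSpace A] in
@[simp] theorem Tact_tmul {X : Type u} [NormedAddCommGroup X] [NormedSpace ℂ X] (a : A)
    (b : Plus A) (x : X) :
    Tact X a (PT.tmul (Plus A) X b x) = PT.tmul (Plus A) X (incl A a * b) x := by
  simp [Tact]

omit [CompleteSpace A] in
theorem Tmap_Tact {X Y : Type u} [NormedAddCommGroup X] [NormedSpace ℂ X]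
    [NormedAddCommGroup Y] [NormedSpace ℂ Y] (h : X →L[ℂ] Y) (a : A) (t : PT (Plus A) X) :
    Tmap X Y h (Tact X a t) = Tact Y a (Tmap X Y h t) := by
  have : (Tmap X Y h).comp (Tact X a) = (Tact Y a).comp (Tmap (A := A) X Y h) :=
    PT.hom_ext fun b x => by simp
  exact congr($this t)

omit [CompleteSpace A] in
theorem Tmap_comp {X Y Z : Type u} [NormedAddCommGroup X] [NormedSpace ℂ X]
    [NormedAddCommGroup Y] [NormedSpace ℂ Y] [NormedAddCommGroup Z] [NormedSpace ℂ Z]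
    (h : X →L[ℂ] Y) (g : Y →L[ℂ] Z) (t : PT (Plus A) X) :
    Tmap X Z (g.comp h) t = Tmap Y Z g (Tmap X Y h t) := by
  have : Tmap X Z (g.comp h) = (Tmap Y Z g).comp (Tmap (A := A) X Y h) :=
    PT.hom_ext fun b x => by simp
  exact congr($this t)

omit [CompleteSpace A] in
theorem Tmap_id {X : Type u} [NormedAddCommGroup X] [NormedSpace ℂ X] (t : PT (Plus A) X) :
    Tmap X X (ContinuousLinearMap.id ℂ X) t = t := by
  have : Tmap X X (ContinuousLinearMap.id ℂ X) = ContinuousLinearMap.id ℂ (PT (Plus A) X) :=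
    PT.hom_ext fun b x => by simp
  exact congr($this t)

/-- The free left module on the underlying space of `M`. -/
abbrev LMod.T (M : LMod A) : LMod A where
  X := PT (Plus A) M.X
  act := Tact M.X
  act_mul := fun a b t => by
    have : Tact M.X (a * b) = (Tact M.X a).comp (Tact M.X b) :=
      PT.hom_ext fun c x => by simp [incl_mul, mul_assoc]
    exact congr($this t)

def LMod.eps (M : LMod A) : PT (Plus A) M.X →L[ℂ] M.X := PT.lift (plusExt M.act)

def LMod.eta (M : LMod A) : M.X →L[ℂ] PT (Plus A) M.X := PT.tmul (Plus A) M.X 1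

omit [CompleteSpace A] in
@[simp] theorem LMod.eps_tmul (M : LMod A) (b : Plus A) (x : M.X) :
    M.eps (PT.tmul (Plus A) M.X b x) = plusExt M.act b x := by simp [LMod.eps]

omit [CompleteSpace A] in
theorem LMod.eps_eta (M : LMod A) (x : M.X) : M.eps (M.eta x) = x := by simp [LMod.eta]

omit [CompleteSpace A] in
theorem LMod.eps_hom (M : LMod A) : (leftCat A).IsHom M.T M M.eps := fun a t => by
  have : M.eps.comp (Tact M.X a) = (M.act a).comp M.eps :=
    PT.hom_ext fun c x => by simp [plusExt_incl_mul M.act M.act_mul]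
  exact congr($this t)

omit [CompleteSpace A] in
theorem eps_Tmap {M N : LMod A} {h : M.X →L[ℂ] N.X} (hh : (leftCat A).IsHom M N h)
    (t : PT (Plus A) M.X) : N.eps (Tmap M.X N.X h t) = h (M.eps t) := by
  have : N.eps.comp (Tmap M.X N.X h) = h.comp M.eps :=
    PT.hom_ext fun c x => by simp [plusExt_comm M.act N.act h hh]
  exact congr($this t)

/-- The first syzygy of a left module. -/
abbrev LMod.K (M : LMod A) : LMod A := LMod.ker M.T M M.eps M.eta M.eps_hom M.eps_eta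

/-- The syzygy functor on bounded maps. -/
def Kmap (M N : LMod A) : (M.X →L[ℂ] N.X) →L[ℂ] (M.K.X →L[ℂ] N.K.X) :=
  (kcomp M.eps N.eps N.eta N.eps_eta).comp (Tmap M.X N.X)

omit [CompleteSpace A] in
theorem kj_Kmap {M N : LMod A} {h : M.X →L[ℂ] N.X} (hh : (leftCat A).IsHom M N h) (x : M.K.X) :
    kj N.eps (Kmap M N h x) = Tmap M.X N.X h (kj M.eps x) :=
  kj_kcomp M.eps N.eps N.eta N.eps_eta _ h (eps_Tmap hh) x

omit [CompleteSpace A] in
theorem Kmap_hom {M N : LMod A} {h : M.X →L[ℂ] N.X} (hh : (leftCat A).IsHom M N h) :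
    (leftCat A).IsHom M.K N.K (Kmap M N h) := fun a x => by
  apply kj_inj N.eps
  rw [kj_Kmap hh, LMod.kj_act M.T M, LMod.kj_act N.T N, kj_Kmap hh]
  exact Tmap_Tact h a _

omit [CompleteSpace A] in
theorem Kmap_comp {M N P : LMod A} {h : M.X →L[ℂ] N.X} (hh : (leftCat A).IsHom M N h)
    (g : N.X →L[ℂ] P.X) (x : M.K.X) : Kmap M P (g.comp h) x = Kmap N P g (Kmap M N h x) := by
  change kr P.eps P.eta P.eps_eta (Tmap M.X P.X (g.comp h) (kj M.eps x)) =
    kr P.eps P.eta P.eps_eta (Tmap N.X P.X g (kj N.eps (Kmap M N h x)))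
  rw [kj_Kmap hh, Tmap_comp]

omit [CompleteSpace A] in
theorem Kmap_id (M : LMod A) (x : M.K.X) : Kmap M M (ContinuousLinearMap.id ℂ M.X) x = x := by
  apply kj_inj M.eps
  rw [kj_Kmap ((nice_left A).hom_id M), Tmap_id]

omit [CompleteSpace A] in
theorem lift_T (M : LMod A) : (leftCat A).Lift M.T := by
  intro Y Z φ σ hφ hσ f hf
  let g0 : M.X →L[ℂ] Y.X := σ.comp (f.comp M.eta)
  refine ⟨Y.eps.comp (Tmap M.X Y.X g0), fun a t => ?_, fun t => ?_⟩
  · change Y.eps (Tmap M.X Y.X g0 (Tact M.X a t)) = Y.act a (Y.eps (Tmap M.X Y.X g0 t))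
    rw [Tmap_Tact]
    exact Y.eps_hom a _
  · have : φ.comp (Y.eps.comp (Tmap M.X Y.X g0)) = f := by
      refine PT.hom_ext (E := Plus A) (F := M.X) fun c x => ?_
      have h1 := plusExt_comm Y.act Z.act φ hφ c (g0 x)
      have h2 := plusExt_comm M.T.act Z.act f hf c (M.eta x)
      have h3 : plusExt M.T.act c (M.eta x) = PT.tmul (Plus A) M.X c x := by
        obtain ⟨c, a, rfl⟩ := plus_cases c
        change plusExt (Tact M.X) _ (PT.tmul (Plus A) M.X 1 x) = _
        simp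
      rw [h3] at h2
      change φ (Y.eps (Tmap M.X Y.X g0 (PT.tmul (Plus A) M.X c x))) = _
      rw [Tmap_tmul, LMod.eps_tmul, h1, h2]
      simp [g0, hσ]
    exact congr($this t)

omit [CompleteSpace A] in
theorem syz_left : ∀ (n : ℕ) (M : LMod A), (leftCat A).Syz n M (LMod.K^[n] M)
  | 0, _ => rfl
  | n + 1, M => ⟨M.K, M.T, ⟨LMod.kerSES M.T M M.eps M.eta M.eps_hom M.eps_eta⟩, lift_T M,
      syz_left n M.K⟩

/-- `A₊ ⊗ Z` as a bimodule. -/
abbrev BiMod.T (Z : BiMod A) : BiMod A where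
  toLMod := Z.toLMod.T
  ract := (Tmap Z.X Z.X).comp Z.ract
  ract_mul := fun a b t => by
    have : Z.ract (a * b) = (Z.ract b).comp (Z.ract a) := by
      ext x
      exact Z.ract_mul a b x
    change Tmap Z.X Z.X (Z.ract (a * b)) t = _
    rw [this]
    exact Tmap_comp _ _ _
  act_ract := fun a b t => (Tmap_Tact _ _ _).symm

omit [CompleteSpace A] [IsScalarTower ℂ A A] [SMulCommClass ℂ A A] in
theorem BiMod.ract_hom (Z : BiMod A) (a : A) :
    (leftCat A).IsHom Z.toLMod Z.toLMod (Z.ract a) := fun b x => (Z.act_ract b a x).symm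

omit [CompleteSpace A] in
theorem BiMod.eps_hom (Z : BiMod A) : (biCat A).IsHom Z.T Z Z.toLMod.eps :=
  ⟨Z.toLMod.eps_hom, fun a t => eps_Tmap (Z.ract_hom a) t⟩

/-- The first syzygy of a bimodule. -/
abbrev BiMod.K (Z : BiMod A) : BiMod A :=
  BiMod.ker Z.T Z Z.toLMod.eps Z.toLMod.eta Z.eps_hom Z.toLMod.eps_eta

omit [CompleteSpace A] in
theorem BiMod.K_toLMod (Z : BiMod A) : Z.K.toLMod = Z.toLMod.K := rfl

omit [CompleteSpace A] in
theorem BiMod.K_ract (Z : BiMod A) (a : A) :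
    Z.K.ract a = Kmap Z.toLMod Z.toLMod (Z.ract a) := rfl

end

end Pool.Agent.Lib.MP_aa5e40_an
end
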