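import Mathlib

/-!
Definitions used in the statement: Banach left modules, Banach bimodules, relative
projectivity, admissible projective resolutions, homological dimension, global dimension and
bidimension of a Banach algebra (Helemskii's homological theory).
-/

set_option autoImplicit false

namespace Pool.Agent.Lib.MP_aa5e40_an.St

universe u

/-- A complex Banach space. -/
structure Ban where
  X : Type u
  [grp : NormedAddCommGroup X]
  [spc : NormedSpace ℂ X]
  [cpl : CompleteSpace X]

attribute [instance] Ban.grp Ban.spc Ban.cpl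

/-- `f` is a bounded linear map. -/
def IsBdd (E F : Ban.{u}) (f : E.X → F.X) : Prop := IsBoundedLinearMap ℂ f

/-- A category whose objects have an underlying Banach space `sp o` and whose morphisms are the
bounded linear maps that satisfy `Equivariant`.  It is used only for the category of Banach left
`A`-modules and for the category of Banach `A`-bimodules, so that the homological definitions,
which are word for word the same in both, are written once. -/
structure ModCat where
  Obj : Type (u + 1)
  sp : Obj → Ban.{u}
  Equivariant : ∀ M N : Obj, ((sp M).X → (sp N).X) → Prop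

/-- Morphisms: bounded linear equivariant maps. -/
def ModCat.IsHom (C : ModCat.{u}) (M N : C.Obj) (f : (C.sp M).X → (C.sp N).X) : Prop :=
  IsBdd (C.sp M) (C.sp N) f ∧ C.Equivariant M N f

/-- `P` is projective: every morphism `φ : Y → P` that has a bounded linear right inverse has a
right inverse that is a morphism. -/
def ModCat.Projective (C : ModCat.{u}) (P : C.Obj) : Prop :=
  ∀ (Y : C.Obj) (φ : (C.sp Y).X → (C.sp P).X), C.IsHom Y P φ →
    (∃ r : (C.sp P).X → (C.sp Y).X, IsBdd (C.sp P) (C.sp Y) r ∧ ∀ x, φ (r x) = x) →
    ∃ s : (C.sp P).X → (C.sp Y).X, C.IsHom P Y s ∧ ∀ x, φ (s x) = x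

/-- A projective resolution `0 ← M ← P 0 ← P 1 ← ⋯` of `M`: a complex of projective objects and
morphisms that is admissible, i.e. has a bounded linear contracting homotopy. -/
structure ModCat.ProjRes (C : ModCat.{u}) (M : C.Obj) where
  P : ℕ → C.Obj
  proj : ∀ k, C.Projective (P k)
  aug : (C.sp (P 0)).X → (C.sp M).X
  d : ∀ k, (C.sp (P (k + 1))).X → (C.sp (P k)).X
  aug_hom : C.IsHom (P 0) M aug
  d_hom : ∀ k, C.IsHom (P (k + 1)) (P k) (d k)
  aug_d : ∀ x, aug (d 0 x) = 0
  d_d : ∀ k x, d k (d (k + 1) x) = 0
  admissible : ∃ (t : (C.sp M).X → (C.sp (P 0)).X)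
    (s : ∀ k, (C.sp (P k)).X → (C.sp (P (k + 1))).X),
    IsBdd (C.sp M) (C.sp (P 0)) t ∧ (∀ k, IsBdd (C.sp (P k)) (C.sp (P (k + 1))) (s k)) ∧
    (∀ x, aug (t x) = x) ∧ (∀ x, d 0 (s 0 x) + t (aug x) = x) ∧
    ∀ k x, d (k + 1) (s (k + 1) x) + s k (d k x) = x

/-- The homological dimension of `M`: the least `n` such that `M` has a projective resolution
with `P k = 0` for all `k > n`, and `∞` if there is none. -/
noncomputable def ModCat.dh (C : ModCat.{u}) (M : C.Obj) : ℕ∞ :=
  sInf {m : ℕ∞ | ∃ n : ℕ, m = n ∧
    ∃ R : C.ProjRes M, ∀ k, n < k → ∀ x : (C.sp (R.P k)).X, x = 0}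

variable (A : Type u) [NonUnitalNormedRing A] [NormedSpace ℂ A]

/-- `(a, x) ↦ act a x` is a bounded (that is, continuous) bilinear map `A × E → E`. -/
def IsBddBil (E : Ban.{u}) (act : A → E.X → E.X) : Prop :=
  IsBoundedBilinearMap ℂ (fun p : A × E.X => act p.1 p.2)

/-- A Banach left `A`-module: a complex Banach space with a continuous bilinear associative
action `a · x = act a x`. -/
structure LMod where
  sp : Ban.{u}
  act : A → sp.X → sp.X
  act_bdd : IsBddBil A sp act
  act_mul : ∀ a b x, act (a * b) x = act a (act b x)

/-- A Banach `A`-bimodule: a complex Banach space with continuous bilinear associative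
commuting actions `a · x = act a x` and `x · a = ract a x`. -/
structure BiMod where
  sp : Ban.{u}
  act : A → sp.X → sp.X
  act_bdd : IsBddBil A sp act
  act_mul : ∀ a b x, act (a * b) x = act a (act b x)
  ract : A → sp.X → sp.X
  ract_bdd : IsBddBil A sp ract
  ract_mul : ∀ a b x, ract (a * b) x = ract b (ract a x)
  act_ract : ∀ a b x, act a (ract b x) = ract b (act a x)

/-- The category `A`-mod of Banach left `A`-modules and bounded module maps. -/
def leftCat : ModCat.{u} where
  Obj := LMod A
  sp := fun M => M.sp
  Equivariant := fun M N f => ∀ a x, f (M.act a x) = N.act a (f x)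

/-- The category `A`-mod-`A` of Banach `A`-bimodules and bounded bimodule maps. -/
def biCat : ModCat.{u} where
  Obj := BiMod A
  sp := fun M => M.sp
  Equivariant := fun M N f =>
    (∀ a x, f (M.act a x) = N.act a (f x)) ∧ (∀ a x, f (M.ract a x) = N.ract a (f x))

/-- The left global dimension of `A`: the supremum of the homological dimensions of all Banach
left `A`-modules. -/
noncomputable def dg : ℕ∞ := ⨆ M : LMod A, (leftCat A).dh M

variable [IsScalarTower ℂ A A] [SMulCommClass ℂ A A] [CompleteSpace A]

/-- The unitization `A₊ = ℂ ⊕ A` as a Banach space with the norm `|λ| + ‖a‖`. -/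
noncomputable def plus : Ban.{u} := ⟨WithLp 1 (Unitization ℂ A)⟩

/-- Left multiplication `a · x` in the unitization. -/
def lmul (a : A) (x : (plus A).X) : (plus A).X :=
  WithLp.toLp 1 ((a : Unitization ℂ A) * WithLp.ofLp (p := 1) (V := Unitization ℂ A) x)

/-- Right multiplication `x · a` in the unitization. -/
def rmul (a : A) (x : (plus A).X) : (plus A).X :=
  WithLp.toLp 1 (WithLp.ofLp (p := 1) (V := Unitization ℂ A) x * (a : Unitization ℂ A))

theorem lmul_bdd : IsBddBil A (plus A) (lmul A) where
  add_left := fun a b x => congrArg (WithLp.toLp 1) (by rw [Unitization.inr_add, add_mul]; rfl)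
  smul_left := fun c a x => congrArg (WithLp.toLp 1) (by
    rw [Unitization.inr_smul]
    exact Algebra.smul_mul_assoc _ _ _)
  add_right := fun a x y => congrArg (WithLp.toLp 1) (mul_add _ _ _)
  smul_right := fun c a x => congrArg (WithLp.toLp 1) (mul_smul_comm _ _ _)
  bound := ⟨1, one_pos, fun a x => by
    have h := norm_mul_le (WithLp.toLp 1 (a : Unitization ℂ A))
      (show WithLp 1 (Unitization ℂ A) from x)
    rw [WithLp.unitization_norm_inr] at h
    rw [one_mul]
    exact h⟩

theorem rmul_bdd : IsBddBil A (plus A) (rmul A) where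
  add_left := fun a b x => congrArg (WithLp.toLp 1) (by rw [Unitization.inr_add, mul_add]; rfl)
  smul_left := fun c a x => congrArg (WithLp.toLp 1) (by
    rw [Unitization.inr_smul]
    exact Algebra.mul_smul_comm _ _ _)
  add_right := fun a x y => congrArg (WithLp.toLp 1) (add_mul _ _ _)
  smul_right := fun c a x => congrArg (WithLp.toLp 1) (smul_mul_assoc _ _ _)
  bound := ⟨1, one_pos, fun a x => by
    have h := norm_mul_le (show WithLp 1 (Unitization ℂ A) from x)
      (WithLp.toLp 1 (a : Unitization ℂ A))
    rw [WithLp.unitization_norm_inr, mul_comm] at h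
    rw [one_mul]
    exact h⟩

theorem lmul_mul (a b : A) (x : (plus A).X) : lmul A (a * b) x = lmul A a (lmul A b x) :=
  congrArg (WithLp.toLp 1) (by rw [Unitization.inr_mul, mul_assoc]; rfl)

theorem rmul_mul (a b : A) (x : (plus A).X) : rmul A (a * b) x = rmul A b (rmul A a x) :=
  congrArg (WithLp.toLp 1) (by rw [Unitization.inr_mul, ← mul_assoc]; rfl)

theorem lmul_rmul (a b : A) (x : (plus A).X) :
    lmul A a (rmul A b x) = rmul A b (lmul A a x) :=
  congrArg (WithLp.toLp 1) (mul_assoc _ _ _).symm

/-- `A₊` as a Banach `A`-bimodule, with the actions given by multiplication in `A₊`. -/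
noncomputable def plusBiMod : BiMod A where
  sp := plus A
  act := lmul A
  act_bdd := lmul_bdd A
  act_mul := lmul_mul A
  ract := rmul A
  ract_bdd := rmul_bdd A
  ract_mul := rmul_mul A
  act_ract := lmul_rmul A

/-- The bidimension of `A`: the homological dimension of the bimodule `A₊`. -/
noncomputable def db : ℕ∞ := (biCat A).dh (plusBiMod A)

end Pool.Agent.Lib.MP_aa5e40_an.St
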