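import Mathlib
import Pool.Agent.Lib.MP_aa5e40_an.Mods
import Pool.Agent.Lib.MP_aa5e40_an.Gen
import Pool.Agent.Lib.MP_aa5e40_an.Stmt

-- part Pool.Agent.Lib.MP_aa5e40_an.Rigid
section

/-!
The rigid module.  For a unital Banach algebra `B` we build a Banach left `B`-module with
coordinates `π ξ` and vectors `e ξ` such that every family of bounded bilinear maps
`Θ y : M × B(M, B) → U` is balanced over `B` at some coordinate `ξ`.
-/

set_option autoImplicit false
set_option maxSynthPendingDepth 3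

namespace Pool.Agent.Lib.MP_aa5e40_an

open ContinuousLinearMap Filter Topology Cardinal

universe u

noncomputable section

section Combinatorics

variable {B : Type u} [NormedRing B] [NormedAlgebra ℂ B] [CompleteSpace B]
variable {V D : Type u} (hist : D → V → Finset D × Bool) (bv : V → B)

/-- `σ` is a finite chain for the tree structure number `v`. -/
def IsCh (v : V) (σ : Finset D) : Prop :=
  ∀ t ∈ σ, t ∉ (hist t v).1 ∧ (hist t v).1 ⊆ σ ∧
    ∀ s ∈ σ, s ≠ t → s ∈ (hist t v).1 ∨ t ∈ (hist s v).1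

/-- The index set of the coordinates. -/
abbrev Idx : Type u := D ⊕ {p : V × Finset D // IsCh hist p.1 p.2}

def rr (v : V) (s : D) : B := if (hist s v).2 then 1 else bv v

def aa (v : V) (s : D) : B := if (hist s v).2 then bv v else -1

open Classical in
def EE (ξ : D) : Idx hist → B :=
  Sum.elim (fun η => if η = ξ then 1 else 0)
    (fun p => if ξ ∈ p.1.2 then rr hist bv p.1.1 ξ else 0)

variable {hist bv}

omit [NormedAlgebra ℂ B] [CompleteSpace B] in
theorem norm_rr_le (h1 : ‖(1 : B)‖ ≤ 1) (hb : ∀ v, ‖bv v‖ ≤ 1) (v : V) (s : D) :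
    ‖rr hist bv v s‖ ≤ 1 := by
  unfold rr
  split_ifs
  · exact h1
  · exact hb v

omit [NormedAlgebra ℂ B] [CompleteSpace B] in
theorem norm_aa_le (h1 : ‖(1 : B)‖ ≤ 1) (hb : ∀ v, ‖bv v‖ ≤ 1) (v : V) (s : D) :
    ‖aa hist bv v s‖ ≤ 1 := by
  unfold aa
  split_ifs
  · exact hb v
  · simpa using h1

omit [NormedAlgebra ℂ B] [CompleteSpace B] in
theorem norm_EE_le (h1 : ‖(1 : B)‖ ≤ 1) (hb : ∀ v, ‖bv v‖ ≤ 1) (ξ : D) (i : Idx hist) :
    ‖EE hist bv ξ i‖ ≤ 1 := by
  rcases i with η | p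
  · simp only [EE, Sum.elim_inl]
    split_ifs
    · exact h1
    · simp
  · simp only [EE, Sum.elim_inr]
    split_ifs
    · exact norm_rr_le h1 hb _ _
    · simp

/-- Right multiplication. -/
abbrev RM (b : B) : B →L[ℂ] B := (ContinuousLinearMap.mul ℂ B).flip b

omit [CompleteSpace B] in
theorem norm_RM_comp_le {M : Type u} [NormedAddCommGroup M] [NormedSpace ℂ M] (b : B)
    (hb : ‖b‖ ≤ 1) (p : M →L[ℂ] B) (hp : ‖p‖ ≤ 1) : ‖(RM b).comp p‖ ≤ 1 := by
  refine opNorm_le_bound _ zero_le_one fun m => ?_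
  calc ‖((RM b).comp p) m‖ = ‖p m * b‖ := by simp
    _ ≤ ‖p m‖ * ‖b‖ := norm_mul_le _ _
    _ ≤ (‖p‖ * ‖m‖) * 1 := by gcongr; exact p.le_opNorm m
    _ ≤ (1 * ‖m‖) * 1 := by gcongr
    _ = 1 * ‖m‖ := by ring

variable (G : GenMod B (Idx hist) D (EE hist bv))

def xx (v : V) (σ : Finset D) : G.M := ∑ s ∈ σ, G.act (aa hist bv v s) (G.e s)

def LL (v : V) (σ : Finset D) : G.M →L[ℂ] B :=
  ∑ s ∈ σ, (RM (rr hist bv v s)).comp (G.ev (Sum.inl s))

omit [CompleteSpace B] in
theorem gen_ext {W : Type u} [NormedAddCommGroup W] [NormedSpace ℂ W] {f g : G.M →L[ℂ] W}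
    (h : ∀ b ξ, f (G.act b (G.e ξ)) = g (G.act b (G.e ξ))) : f = g := by
  ext m
  refine G.ind (fun m => f m = g m) (isClosed_eq f.continuous g.continuous) (by simp) h ?_ m
  intro s t hs ht
  simp [hs, ht]

omit [CompleteSpace B] in
theorem ev_inr_eq (v : V) (σ : Finset D) (h : IsCh hist v σ) :
    G.ev (Sum.inr ⟨(v, σ), h⟩) = LL G v σ := by
  classical
  refine gen_ext G fun b ξ => ?_
  simp only [LL, FunLike.coe_sum, Finset.sum_apply, comp_apply, G.ev_act, G.ev_e, EE, Sum.elim_inr,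
    Sum.elim_inl, flip_apply, mul_apply']
  by_cases hξ : ξ ∈ σ
  · rw [if_pos hξ, Finset.sum_eq_single ξ]
    · simp
    · intro s _ hs
      simp [hs]
    · intro h'
      exact absurd hξ h'
  · rw [if_neg hξ, Finset.sum_eq_zero]
    · simp
    · intro s hs
      have : s ≠ ξ := fun h' => hξ (h' ▸ hs)
      simp [this]

omit [CompleteSpace B] in
theorem norm_LL_le (v : V) (σ : Finset D) (h : IsCh hist v σ) : ‖LL G v σ‖ ≤ 1 := by
  rw [← ev_inr_eq G v σ h]
  exact G.norm_ev _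

omit [CompleteSpace B] in
theorem tendsto_ev_inl (m : G.M) :
    Tendsto (fun ζ : D => G.ev (Sum.inl ζ) m) cofinite (𝓝 0) := by
  classical
  refine G.ind (fun m => Tendsto (fun ζ : D => G.ev (Sum.inl ζ) m) cofinite (𝓝 0))
    (isClosed_tendsto_zero (fun ζ : D => G.ev (Sum.inl ζ)) 1 fun ζ => G.norm_ev _) ?_ ?_ ?_ m
  · simpa using tendsto_const_nhds
  · intro b ξ
    refine tendsto_const_nhds.congr' ?_
    have : ∀ᶠ ζ : D in cofinite, ζ ≠ ξ := eventually_cofinite_ne ξ
    filter_upwards [this] with ζ hζ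
    simp [G.ev_act, G.ev_e, EE, hζ]
  · intro s t hs ht
    simpa using hs.add ht

omit [CompleteSpace B] in
/-- Sums over siblings have norm at most one. -/
theorem norm_sum_siblings (h1 : ‖(1 : B)‖ ≤ 1) (hb : ∀ v, ‖bv v‖ ≤ 1) (c : B) (hc : ‖c‖ ≤ 1)
    (S : Finset D) (hS : ∀ s ∈ S, ∀ t ∈ S, hist s = hist t) :
    ‖∑ s ∈ S, G.act c (G.e s)‖ ≤ 1 := by
  classical
  refine G.norm_le _ 1 zero_le_one fun i => ?_
  rw [map_sum]
  simp only [G.ev_act, G.ev_e]
  have key : ∀ s ∈ S, ∀ t ∈ S, EE hist bv s i ≠ 0 → EE hist bv t i ≠ 0 → s = t := by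
    intro s hs t ht hs0 ht0
    rcases i with η | ⟨⟨v, τ⟩, hτ⟩
    · simp only [EE, Sum.elim_inl, ne_eq, ite_eq_right_iff, Classical.not_imp] at hs0 ht0
      rw [← hs0.1, ← ht0.1]
    · simp only [EE, Sum.elim_inr, ne_eq, ite_eq_right_iff, Classical.not_imp] at hs0 ht0
      by_contra hne
      rcases (hτ t ht0.1).2.2 s hs0.1 hne with h | h
      · exact (hτ s hs0.1).1 (by rw [hS s hs t ht]; exact h)
      · exact (hτ t ht0.1).1 (by rw [← hS s hs t ht]; exact h)
  by_cases hex : ∃ s ∈ S, EE hist bv s i ≠ 0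
  · obtain ⟨s, hs, hs0⟩ := hex
    rw [Finset.sum_eq_single s]
    · calc ‖c * EE hist bv s i‖ ≤ ‖c‖ * ‖EE hist bv s i‖ := norm_mul_le _ _
        _ ≤ 1 * 1 := by gcongr; exact norm_EE_le h1 hb s i
        _ = 1 := by ring
    · intro t ht hts
      by_contra h
      have : EE hist bv t i ≠ 0 := fun h0 => h (by rw [h0, mul_zero])
      exact hts (key t ht s hs this hs0)
    · intro h
      exact absurd hs h
  · push Not at hex
    rw [Finset.sum_eq_zero]
    · simp
    · intro s hs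
      rw [hex s hs, mul_zero]

variable {Y U : Type u} [NormedAddCommGroup U] [NormedSpace ℂ U]
variable (Θ : Y → G.M →L[ℂ] (G.M →L[ℂ] B) →L[ℂ] U) (yv : V → Y) (P Q : V → U) (col : D → V)

/-- The invariant of the chains built in the maximality argument. -/
structure Good (v : V) (σ : Finset D) (n : ℕ) : Prop where
  ch : IsCh hist v σ
  col_eq : ∀ s ∈ σ, col s = v
  coord : ∀ i, ‖G.ev i (xx G v σ)‖ ≤ 1
  total : ∑ s ∈ σ, aa hist bv v s * rr hist bv v s = if Even n then 0 else bv v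
  value : Θ (yv v) (xx G v σ) (LL G v σ) =
    ((n / 2 : ℕ) : ℝ) • (P v - Q v) + if Even n then 0 else P v

omit [CompleteSpace B] in
theorem good_empty (v : V) : Good G Θ yv P Q col v ∅ 0 where
  ch := fun t ht => absurd ht (Finset.notMem_empty t)
  col_eq := fun t ht => absurd ht (Finset.notMem_empty t)
  coord := fun i => by simp [xx]
  total := by simp
  value := by simp [xx]

omit [CompleteSpace B] in
theorem good_bdd (v : V) (hPQ : P v ≠ Q v) :
    BddAbove {n : ℕ | ∃ σ, Good G Θ yv P Q col v σ n} := by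
  have hδ : 0 < ‖P v - Q v‖ := norm_pos_iff.2 (sub_ne_zero.2 hPQ)
  obtain ⟨N, hN⟩ := exists_nat_ge ((‖Θ (yv v)‖ + ‖P v‖) / ‖P v - Q v‖)
  refine ⟨2 * N + 1, ?_⟩
  rintro n ⟨σ, hσ⟩
  have hx : ‖xx G v σ‖ ≤ 1 := G.norm_le _ 1 zero_le_one hσ.coord
  have hL : ‖LL G v σ‖ ≤ 1 := norm_LL_le G v σ hσ.ch
  have h1 : ‖Θ (yv v) (xx G v σ) (LL G v σ)‖ ≤ ‖Θ (yv v)‖ := by
    calc _ ≤ ‖Θ (yv v)‖ * ‖xx G v σ‖ * ‖LL G v σ‖ := le_opNorm₂ _ _ _
      _ ≤ ‖Θ (yv v)‖ * 1 * 1 := by gcongr
      _ = _ := by ring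
  have h2 : ‖(if Even n then 0 else P v)‖ ≤ ‖P v‖ := by
    split_ifs
    · simp
    · exact le_rfl
  have h3 : ((n / 2 : ℕ) : ℝ) * ‖P v - Q v‖ ≤ ‖Θ (yv v)‖ + ‖P v‖ := by
    have : ((n / 2 : ℕ) : ℝ) • (P v - Q v) =
        Θ (yv v) (xx G v σ) (LL G v σ) - (if Even n then 0 else P v) := by
      rw [hσ.value]; abel
    calc ((n / 2 : ℕ) : ℝ) * ‖P v - Q v‖ = ‖((n / 2 : ℕ) : ℝ) • (P v - Q v)‖ := by
          rw [norm_smul, Real.norm_natCast]
      _ ≤ ‖Θ (yv v) (xx G v σ) (LL G v σ)‖ + ‖(if Even n then 0 else P v)‖ := by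
          rw [this]; exact norm_sub_le _ _
      _ ≤ _ := add_le_add h1 h2
  have h4 : ((n / 2 : ℕ) : ℝ) ≤ N := by
    refine le_trans ?_ hN
    rwa [le_div_iff₀ hδ]
  have h5 : n / 2 ≤ N := by exact_mod_cast h4
  omega

omit [CompleteSpace B] in
/-- The extension step. -/
theorem good_step (h1 : ‖(1 : B)‖ ≤ 1) (hb : ∀ v, ‖bv v‖ ≤ 1)
    (hP : ∀ s, Θ (yv (col s)) (G.act (bv (col s)) (G.e s)) (G.ev (Sum.inl s)) = P (col s))
    (hQ : ∀ s, Θ (yv (col s)) (G.e s) ((RM (bv (col s))).comp (G.ev (Sum.inl s))) = Q (col s))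
    (σ : V → Finset D) (n : V → ℕ) (hσ : ∀ v, Good G Θ yv P Q col v (σ v) (n v)) (ζ : D)
    (hζ : ∀ v, hist ζ v = (σ v, decide (Even (n v))))
    (hx1 : Θ (yv (col ζ)) (xx G (col ζ) (σ (col ζ)))
      ((RM (rr hist bv (col ζ) ζ)).comp (G.ev (Sum.inl ζ))) = 0)
    (hx2 : Θ (yv (col ζ)) (G.act (aa hist bv (col ζ) ζ) (G.e ζ)) (LL G (col ζ) (σ (col ζ))) = 0)
    (hx3 : ζ ∉ σ (col ζ)) (hx4 : ∀ s ∈ σ (col ζ), ∀ v', ζ ∉ (hist s v').1) :
    ∃ τ, Good G Θ yv P Q col (col ζ) τ (n (col ζ) + 1) := by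
  classical
  set v := col ζ with hv
  have hg := hσ v
  have hh1 : ∀ v', (hist ζ v').1 = σ v' := fun v' => by rw [hζ]
  have hh2 : (hist ζ v).2 = decide (Even (n v)) := by rw [hζ]
  have htot : ∑ s ∈ insert ζ (σ v), aa hist bv v s * rr hist bv v s =
      if Even (n v + 1) then 0 else bv v := by
    rw [Finset.sum_insert hx3, hg.total]
    by_cases he : Even (n v)
    · simp [aa, rr, hh2, he, Nat.even_add_one]
    · simp [aa, rr, hh2, he, Nat.even_add_one]
  have hxx : xx G v (insert ζ (σ v)) = G.act (aa hist bv v ζ) (G.e ζ) + xx G v (σ v) := by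
    simp only [xx]
    rw [Finset.sum_insert hx3]
  have hLL : LL G v (insert ζ (σ v)) =
      (RM (rr hist bv v ζ)).comp (G.ev (Sum.inl ζ)) + LL G v (σ v) := by
    simp only [LL]
    rw [Finset.sum_insert hx3]
  refine ⟨insert ζ (σ v), ?_, ?_, ?_, htot, ?_⟩
  · intro t ht
    rcases Finset.mem_insert.1 ht with rfl | ht
    · refine ⟨by rw [hh1]; exact hx3, by rw [hh1]; exact Finset.subset_insert _ _, ?_⟩
      intro s hs hne
      left
      rw [hh1]
      exact (Finset.mem_insert.1 hs).resolve_left hne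
    · refine ⟨(hg.ch t ht).1, (hg.ch t ht).2.1.trans (Finset.subset_insert _ _), ?_⟩
      intro s hs hne
      rcases Finset.mem_insert.1 hs with rfl | hs
      · right
        rw [hh1]
        exact ht
      · exact (hg.ch t ht).2.2 s hs hne
  · intro s hs
    rcases Finset.mem_insert.1 hs with rfl | hs
    · rfl
    · exact hg.col_eq s hs
  · intro i
    by_cases hi : EE hist bv ζ i = 0
    · rw [hxx, map_add, G.ev_act, G.ev_e, hi, mul_zero, zero_add]
      exact hg.coord i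
    · have hone : ‖G.ev i (G.act (aa hist bv v ζ) (G.e ζ))‖ ≤ 1 := by
        rw [G.ev_act, G.ev_e]
        calc _ ≤ ‖aa hist bv v ζ‖ * ‖EE hist bv ζ i‖ := norm_mul_le _ _
          _ ≤ 1 * 1 := by
            gcongr
            · exact norm_aa_le h1 hb _ _
            · exact norm_EE_le h1 hb _ _
          _ = 1 := by ring
      have hzero : (∀ s ∈ σ v, EE hist bv s i = 0) →
          ‖G.ev i (xx G v (insert ζ (σ v)))‖ ≤ 1 := by
        intro h
        have : G.ev i (xx G v (σ v)) = 0 := by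
          simp only [xx, map_sum, G.ev_act, G.ev_e]
          exact Finset.sum_eq_zero fun s hs => by rw [h s hs, mul_zero]
        rw [hxx, map_add, this, add_zero]
        exact hone
      rcases i with η | ⟨⟨v', τ⟩, hτ⟩
      · refine hzero fun s hs => ?_
        simp only [EE, Sum.elim_inl, ite_eq_right_iff, Classical.not_imp] at hi ⊢
        intro h
        exact absurd (hi.1 ▸ h ▸ hs) hx3
      · have hζτ : ζ ∈ τ := by
          by_contra h
          exact hi (by simp [EE, h])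
        by_cases hvv : v' = v
        · subst hvv
          have hsub : insert ζ (σ v) ⊆ τ := by
            refine Finset.insert_subset hζτ ?_
            have := (hτ ζ hζτ).2.1
            rwa [hh1] at this
          have : G.ev (Sum.inr ⟨(v, τ), hτ⟩) (xx G v (insert ζ (σ v))) =
              ∑ s ∈ insert ζ (σ v), aa hist bv v s * rr hist bv v s := by
            simp only [xx, map_sum, G.ev_act, G.ev_e]
            refine Finset.sum_congr rfl fun s hs => ?_
            simp [EE, hsub hs]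
          rw [this, htot]
          split_ifs
          · simp
          · exact hb v
        · refine hzero fun s hs => ?_
          have hsτ : s ∉ τ := by
            intro hsτ
            have hne : s ≠ ζ := fun h => hx3 (h ▸ hs)
            rcases (hτ ζ hζτ).2.2 s hsτ hne with h | h
            · rw [hh1] at h
              exact hvv (((hσ v').col_eq s h).symm.trans (hg.col_eq s hs))
            · exact hx4 s hs v' h
          simp [EE, hsτ]
  · rw [hxx, hLL]
    simp only [map_add, add_apply]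
    rw [hx1, hx2, hg.value]
    by_cases he : Even (n v)
    · have h2 : (n v + 1) / 2 = n v / 2 := by
        obtain ⟨k, hk⟩ := he
        omega
      have ha : aa hist bv v ζ = bv v := by simp [aa, hh2, he]
      have hr : (RM (rr hist bv v ζ)).comp (G.ev (Sum.inl ζ)) = G.ev (Sum.inl ζ) := by
        ext m
        simp [rr, hh2, he]
      rw [ha, hr, hP ζ, h2]
      simp only [he, if_true, Nat.even_add_one, not_true, if_false]
      abel
    · have h2 : (n v + 1) / 2 = n v / 2 + 1 := by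
        rw [Nat.not_even_iff_odd] at he
        obtain ⟨k, hk⟩ := he
        omega
      have ha : G.act (aa hist bv v ζ) (G.e ζ) = -G.e ζ := by
        simp [aa, hh2, he, G.act_one]
      have hr : rr hist bv v ζ = bv v := by simp [rr, hh2, he]
      rw [ha, hr, map_neg, neg_apply, hQ ζ, h2]
      simp only [he, if_false, Nat.even_add_one, not_false_iff, if_true, Nat.cast_add,
        Nat.cast_one, add_smul, one_smul]
      abel

end Combinatorics

theorem small_iUnion {ι α : Type u} {κ : Cardinal.{u}} (hκ : ℵ₀ ≤ κ) (hι : #ι ≤ κ)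
    (S : ι → Set α) (h : ∀ i, #(S i) ≤ κ) : #(⋃ i, S i) ≤ κ :=
  (mk_iUnion_le S).trans ((mul_le_mul' hι (ciSup_le' h)).trans (mul_eq_self hκ).le)

theorem small_union {α : Type u} {κ : Cardinal.{u}} (hκ : ℵ₀ ≤ κ) {S T : Set α}
    (hS : #S ≤ κ) (hT : #T ≤ κ) : #(S ∪ T : Set α) ≤ κ :=
  (mk_union_le S T).trans (Cardinal.add_le_of_le hκ hS hT)

theorem small_of_countable {α : Type u} {κ : Cardinal.{u}} (hκ : ℵ₀ ≤ κ) {S : Set α}
    (hS : S.Countable) : #S ≤ κ :=
  (le_aleph0_iff_set_countable.2 hS).trans hκ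

theorem exists_index (V U : Type u) : ∃ (D : Type u) (κ : Cardinal.{u})
    (J : D × (V → Finset D × Bool) → D), ℵ₀ ≤ κ ∧ #V ≤ κ ∧ #U ≤ κ ∧ κ < #D ∧
      Function.Injective J := by
  let κ : Cardinal.{u} := max (max #V #U) ℵ₀
  have hκ : ℵ₀ ≤ κ := le_max_right _ _
  have hV : #V ≤ κ := (le_max_left _ _).trans (le_max_left _ _)
  have hU : #U ≤ κ := (le_max_right _ _).trans (le_max_left _ _)
  let D : Type u := ((2 : Cardinal.{u}) ^ κ).out
  have hD : #D = 2 ^ κ := mk_out _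
  have hlt : κ < #D := by rw [hD]; exact cantor κ
  have hinf : ℵ₀ ≤ #D := hκ.trans hlt.le
  have : Infinite D := Cardinal.infinite_iff.2 hinf
  have h1 : #(Finset D × Bool) = #D := by
    simp only [mk_prod, mk_finset_of_infinite, lift_uzero, mk_bool, lift_ofNat]
    exact Cardinal.mul_eq_left hinf (le_trans (by exact_mod_cast Cardinal.natCast_le_aleph0 (n := 2)) hinf) two_ne_zero
  have h2 : #(V → Finset D × Bool) ≤ #D := by
    rw [← power_def, h1, hD, ← power_mul]
    refine power_le_power_left two_ne_zero ?_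
    exact (mul_le_mul' le_rfl hV).trans (mul_eq_self hκ).le
  have h3 : #(D × (V → Finset D × Bool)) ≤ #D := by
    rw [← Cardinal.mul_def]
    exact (mul_le_mul' le_rfl h2).trans (mul_eq_self hinf).le
  obtain ⟨J⟩ := (Cardinal.le_def _ _).1 h3
  exact ⟨D, κ, J, hκ, hV, hU, hlt, J.injective⟩

variable (B : Type u) [NormedRing B] [NormedAlgebra ℂ B] [CompleteSpace B]
variable (Y U : Type u) [NormedAddCommGroup U] [NormedSpace ℂ U]

/-- A rigid module for the data `B`, `Y`, `U`. -/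
structure Rigid where
  M : Type u
  [grp : NormedAddCommGroup M]
  [spc : NormedSpace ℂ M]
  [cpl : CompleteSpace M]
  act : B →L[ℂ] M →L[ℂ] M
  act_mul : ∀ a b x, act (a * b) x = act a (act b x)
  act_one : ∀ x, act 1 x = x
  D : Type u
  e : D → M
  π : D → M →L[ℂ] B
  π_act : ∀ ξ b m, π ξ (act b m) = b * π ξ m
  π_e : ∀ ξ, π ξ (e ξ) = 1
  rigid : ∀ Θ : Y → M →L[ℂ] (M →L[ℂ] B) →L[ℂ] U,
    (∀ (y : Y) (x : M) (p : D → M →L[ℂ] B), (∀ ζ, ‖p ζ‖ ≤ 1) →
      (∀ m, Tendsto (fun ζ => p ζ m) cofinite (𝓝 0)) →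
      Tendsto (fun ζ => Θ y x (p ζ)) cofinite (𝓝 0)) →
    ∃ ξ, ∀ y b, Θ y (act b (e ξ)) (π ξ) = Θ y (e ξ) ((RM b).comp (π ξ))

attribute [instance] Rigid.grp Rigid.spc Rigid.cpl

theorem nonempty_rigid (h1 : ‖(1 : B)‖ ≤ 1) : Nonempty (Rigid B Y U) := by
  classical
  let V : Type u := {v : Y → B → U × U // ∃ y b, ‖b‖ ≤ 1 ∧ (v y b).1 ≠ (v y b).2}
  let yv : V → Y := fun v => v.2.choose
  let bv : V → B := fun v => v.2.choose_spec.choose
  have hb : ∀ v, ‖bv v‖ ≤ 1 := fun v => v.2.choose_spec.choose_spec.1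
  let P : V → U := fun v => (v.1 (yv v) (bv v)).1
  let Q : V → U := fun v => (v.1 (yv v) (bv v)).2
  have hPQ : ∀ v, P v ≠ Q v := fun v => v.2.choose_spec.choose_spec.2
  obtain ⟨D, κ, J, hκ, hV, hU, hlt, hJ⟩ := exists_index V U
  have hDne : Nonempty D := by
    rw [← Cardinal.mk_ne_zero_iff]
    exact (lt_of_le_of_lt zero_le hlt).ne'
  let hist : D → V → Finset D × Bool := fun ζ => (Function.invFun J ζ).2
  have hhist : ∀ l h, hist (J (l, h)) = h := fun l h => by
    simp only [hist]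
    rw [Function.leftInverse_invFun hJ (l, h)]
  obtain ⟨G⟩ := nonempty_genMod B (Idx hist) D (EE hist bv) (norm_EE_le h1 hb)
  refine ⟨
    { M := G.M
      act := G.act
      act_mul := G.act_mul
      act_one := G.act_one
      D := D
      e := G.e
      π := fun ξ => G.ev (Sum.inl ξ)
      π_act := fun ξ => G.ev_act _
      π_e := fun ξ => by simp [G.ev_e, EE]
      rigid := fun Θ hΘ => ?_ }⟩
  suffices H : ∃ ξ, ∀ y b, ‖b‖ ≤ 1 → Θ y (G.act b (G.e ξ)) (G.ev (Sum.inl ξ)) =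
      Θ y (G.e ξ) ((RM b).comp (G.ev (Sum.inl ξ))) by
    obtain ⟨ξ, hξ⟩ := H
    refine ⟨ξ, fun y b => ?_⟩
    have hc : (0 : ℝ) < ‖b‖ + 1 := by positivity
    have hc' : ((‖b‖ + 1 : ℝ) : ℂ) ≠ 0 := by exact_mod_cast hc.ne'
    have hb' : ‖((‖b‖ + 1 : ℝ) : ℂ)⁻¹ • b‖ ≤ 1 := by
      rw [norm_smul, norm_inv, Complex.norm_real, Real.norm_of_nonneg hc.le,
        inv_mul_le_iff₀ hc]
      linarith
    have := hξ y _ hb'
    have h2 : (RM (((‖b‖ + 1 : ℝ) : ℂ)⁻¹ • b)).comp (G.ev (Sum.inl ξ)) =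
        ((‖b‖ + 1 : ℝ) : ℂ)⁻¹ • (RM b).comp (G.ev (Sum.inl ξ)) := by
      ext m
      simp
    rw [h2] at this
    simp only [map_smul, smul_apply] at this
    exact smul_right_injective U (inv_ne_zero hc') this
  by_contra hcon
  push Not at hcon
  let col : D → V := fun ξ =>
    ⟨fun y b => (Θ y (G.act b (G.e ξ)) (G.ev (Sum.inl ξ)),
      Θ y (G.e ξ) ((RM b).comp (G.ev (Sum.inl ξ)))), hcon ξ⟩
  let n : V → ℕ := fun v => sSup {n : ℕ | ∃ σ, Good G Θ yv P Q col v σ n}
  have hn : ∀ v, ∃ σ, Good G Θ yv P Q col v σ (n v) := fun v =>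
    Nat.sSup_mem (s := {n : ℕ | ∃ σ, Good G Θ yv P Q col v σ n})
      ⟨0, ∅, good_empty G Θ yv P Q col v⟩ (good_bdd G Θ yv P Q col v (hPQ v))
  choose σ hσ using hn
  let h : V → Finset D × Bool := fun v => (σ v, decide (Even (n v)))
  let z : D → D := fun l => J (l, h)
  have hz : Function.Injective z := fun l l' hl => (Prod.ext_iff.1 (hJ hl)).1
  have hzh : ∀ l, hist (z l) = h := fun l => hhist l h
  let r' : V → B := fun v => if Even (n v) then 1 else bv v
  let a' : V → B := fun v => if Even (n v) then bv v else -1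
  have hr' : ∀ v l, rr hist bv v (z l) = r' v := fun v l => by simp [rr, hzh, h, r']
  have ha' : ∀ v l, aa hist bv v (z l) = a' v := fun v l => by simp [aa, hzh, h, a']
  obtain ⟨l0⟩ := hDne
  have hr1 : ∀ v, ‖r' v‖ ≤ 1 := fun v => hr' v l0 ▸ norm_rr_le h1 hb _ _
  have ha1 : ∀ v, ‖a' v‖ ≤ 1 := fun v => ha' v l0 ▸ norm_aa_le h1 hb _ _
  let X1 : V → Set D := fun v =>
    {l | Θ (yv v) (xx G v (σ v)) ((RM (r' v)).comp (G.ev (Sum.inl (z l)))) ≠ 0}
  let X2 : V → Set D := fun v =>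
    {l | Θ (yv v) (G.act (a' v) (G.e (z l))) (LL G v (σ v)) ≠ 0}
  let X3 : V → Set D := fun v => z ⁻¹' (σ v : Set D)
  let X4 : V → V → Set D := fun v v' => z ⁻¹' ((σ v).biUnion (fun s => (hist s v').1) : Finset D)
  have hX1 : ∀ v, #(X1 v) ≤ κ := by
    intro v
    refine small_of_countable hκ ?_
    have ht := hΘ (yv v) (xx G v (σ v)) (fun ζ => (RM (r' v)).comp (G.ev (Sum.inl ζ)))
      (fun ζ => norm_RM_comp_le _ (hr1 v) _ (G.norm_ev _)) (fun m => by
        have := ((RM (r' v)).continuous.tendsto 0).comp (tendsto_ev_inl G m)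
        simpa [Function.comp_def] using this)
    have hc := ht.countable_compl_preimage_ker
    rw [ker_nhds] at hc
    exact (hc.preimage_of_injOn hz.injOn).mono fun l hl => hl
  have hX2 : ∀ v, #(X2 v) ≤ κ := by
    intro v
    let f : D → U := fun l => Θ (yv v) (G.act (a' v) (G.e (z l))) (LL G v (σ v))
    have hfin : ∀ w : U, w ≠ 0 → (f ⁻¹' {w}).Finite := by
      intro w hw
      by_contra hinf
      have hw' : 0 < ‖w‖ := norm_pos_iff.2 hw
      obtain ⟨N, hN⟩ := exists_nat_gt (‖Θ (yv v)‖ / ‖w‖)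
      obtain ⟨S, hS, hcard⟩ := Set.Infinite.exists_subset_card_eq hinf N
      have hsum : Θ (yv v) (∑ s ∈ S.image z, G.act (a' v) (G.e s)) (LL G v (σ v)) =
          (N : ℝ) • w := by
        rw [Finset.sum_image (fun a _ b _ hab => hz hab), map_sum, sum_apply,
          Finset.sum_congr rfl (fun l hl => (hS hl : f l = w)), Finset.sum_const, hcard]
        simp [Nat.cast_smul_eq_nsmul]
      have hx : ‖∑ s ∈ S.image z, G.act (a' v) (G.e s)‖ ≤ 1 := by
        refine norm_sum_siblings G h1 hb _ (ha1 v) _ ?_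
        intro s hs t ht
        obtain ⟨l, _, rfl⟩ := Finset.mem_image.1 hs
        obtain ⟨l', _, rfl⟩ := Finset.mem_image.1 ht
        rw [hzh, hzh]
      have hL : ‖LL G v (σ v)‖ ≤ 1 := norm_LL_le G v (σ v) (hσ v).ch
      have h2 : ‖(N : ℝ) • w‖ ≤ ‖Θ (yv v)‖ := by
        rw [← hsum]
        calc _ ≤ ‖Θ (yv v)‖ * ‖∑ s ∈ S.image z, G.act (a' v) (G.e s)‖ * ‖LL G v (σ v)‖ :=
              le_opNorm₂ _ _ _
          _ ≤ ‖Θ (yv v)‖ * 1 * 1 := by gcongr
          _ = _ := by ring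
      rw [norm_smul, Real.norm_natCast] at h2
      rw [div_lt_iff₀ hw'] at hN
      linarith
    have hsub : X2 v ⊆ ⋃ w : U, (f ⁻¹' {w} ∩ {_l | w ≠ 0}) := by
      intro l hl
      exact Set.mem_iUnion.2 ⟨f l, rfl, hl⟩
    refine (mk_le_mk_of_subset hsub).trans (small_iUnion hκ hU _ fun w => ?_)
    refine small_of_countable hκ ?_
    by_cases hw : w = 0
    · simp [hw]
    · exact ((hfin w hw).subset Set.inter_subset_left).countable
  have hX3 : ∀ v, #(X3 v) ≤ κ := fun v =>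
    small_of_countable hκ ((Finset.countable_toSet _).preimage_of_injOn hz.injOn)
  have hX4 : ∀ v v', #(X4 v v') ≤ κ := fun v v' =>
    small_of_countable hκ ((Finset.countable_toSet _).preimage_of_injOn hz.injOn)
  have hsmall : #(⋃ v, ((X1 v ∪ X2 v) ∪ (X3 v ∪ ⋃ v', X4 v v')) : Set D) ≤ κ :=
    small_iUnion hκ hV _ fun v => small_union hκ (small_union hκ (hX1 v) (hX2 v))
      (small_union hκ (hX3 v) (small_iUnion hκ hV _ (hX4 v)))
  obtain ⟨l, hl⟩ : ∃ l, l ∉ (⋃ v, ((X1 v ∪ X2 v) ∪ (X3 v ∪ ⋃ v', X4 v v')) : Set D) := by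
    by_contra hall
    push Not at hall
    rw [Set.eq_univ_of_forall hall, mk_univ] at hsmall
    exact absurd hlt (not_lt.2 hsmall)
  simp only [Set.mem_iUnion, Set.mem_union, not_exists, not_or] at hl
  obtain ⟨⟨k1, k2⟩, k3, k4⟩ := hl (col (z l))
  obtain ⟨τ, hτ⟩ := good_step G Θ yv P Q col h1 hb (fun s => rfl) (fun s => rfl) σ n hσ (z l)
    (fun v => by rw [hzh]) (by rw [hr']; exact not_not.1 k1) (by rw [ha']; exact not_not.1 k2)
    k3 (fun s hs v' hh => k4 v' (Finset.mem_coe.2 (Finset.mem_biUnion.2 ⟨s, hs, hh⟩)))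
  have := le_csSup (good_bdd G Θ yv P Q col (col (z l)) (hPQ _)) ⟨τ, hτ⟩
  exact absurd this (by simp only [n]; omega)

end

end Pool.Agent.Lib.MP_aa5e40_an
end

-- part Pool.Agent.Lib.MP_aa5e40_an.Transfer
section

/-!
Transfer of projectivity between the syzygies of the bimodule `A₊` and the syzygies of left
modules, in both directions.
-/

set_option autoImplicit false
set_option maxSynthPendingDepth 3

namespace Pool.Agent.Lib.MP_aa5e40_an

open ContinuousLinearMap Filter Topology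

universe u

noncomputable section

variable {A : Type u} [NonUnitalNormedRing A] [NormedSpace ℂ A]

/-- The lifting property for right module maps. -/
def RLift (Z : BiMod A) : Prop :=
  ∀ (Y W : BiMod A) (φ : Y.X →L[ℂ] W.X) (σ : W.X →L[ℂ] Y.X),
    (∀ a x, φ (Y.ract a x) = W.ract a (φ x)) → (∀ w, φ (σ w) = w) →
    ∀ f : Z.X →L[ℂ] W.X, (∀ a x, f (Z.ract a x) = W.ract a (f x)) →
      ∃ g : Z.X →L[ℂ] Y.X, (∀ a x, g (Z.ract a x) = Y.ract a (g x)) ∧ ∀ z, φ (g z) = f z

/-- Operators from a normed space to a right module. -/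
abbrev homR (E : Type u) [NormedAddCommGroup E] [NormedSpace ℂ E] (Y : BiMod A) : BiMod A where
  X := E →L[ℂ] Y.X
  act := 0
  act_mul := fun _ _ _ => by simp
  ract := (compL ℂ E Y.X Y.X).comp Y.ract
  ract_mul := fun a b x => by
    ext e
    simp [Y.ract_mul]
  act_ract := fun a b x => by simp

/-- Operators between two left modules, as a bimodule. -/
abbrev homBi (M Y : LMod A) : BiMod A where
  X := M.X →L[ℂ] Y.X
  act := (compL ℂ M.X Y.X Y.X).comp Y.act
  act_mul := fun a b x => by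
    ext e
    simp [Y.act_mul]
  ract := (compL ℂ M.X M.X Y.X).flip.comp M.act
  ract_mul := fun a b x => by
    ext e
    simp [M.act_mul]
  act_ract := fun a b x => by
    ext e
    simp

variable [IsScalarTower ℂ A A] [SMulCommClass ℂ A A]

/-- Currying of operators on the tensor product. -/
def curry (E F W : Type u) [NormedAddCommGroup E] [NormedSpace ℂ E] [NormedAddCommGroup F]
    [NormedSpace ℂ F] [NormedAddCommGroup W] [NormedSpace ℂ W] :
    (PT E F →L[ℂ] W) →L[ℂ] (F →L[ℂ] E →L[ℂ] W) :=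
  ((flipₗᵢ ℂ E F W).toContinuousLinearEquiv : (E →L[ℂ] F →L[ℂ] W) →L[ℂ] (F →L[ℂ] E →L[ℂ] W)).comp
    (((compL ℂ E (F →L[ℂ] PT E F) (F →L[ℂ] W)).flip (PT.tmul E F)).comp (compL ℂ F (PT E F) W))

@[simp] theorem curry_apply {E F W : Type u} [NormedAddCommGroup E] [NormedSpace ℂ E]
    [NormedAddCommGroup F] [NormedSpace ℂ F] [NormedAddCommGroup W] [NormedSpace ℂ W]
    (g : PT E F →L[ℂ] W) (f : F) (e : E) : curry E F W g f e = g (PT.tmul E F e f) := rfl

theorem Tmap_eta {M N : LMod A} (h : M.X →L[ℂ] N.X) (x : M.X) :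
    Tmap M.X N.X h (M.eta x) = N.eta (h x) := Tmap_tmul h 1 x

theorem kr_Tmap {M N : LMod A} {h : M.X →L[ℂ] N.X} (hh : (leftCat A).IsHom M N h)
    (t : PT (Plus A) M.X) :
    kr N.eps N.eta N.eps_eta (Tmap M.X N.X h t) = Kmap M N h (kr M.eps M.eta M.eps_eta t) := by
  apply kj_inj N.eps
  rw [kj_Kmap hh, kj_kr, kj_kr, eps_Tmap hh, map_sub, Tmap_eta]

theorem free_ext {M Z : LMod A} {f : PT (Plus A) M.X →L[ℂ] Z.X} (hf : (leftCat A).IsHom M.T Z f)
    (t : PT (Plus A) M.X) : Z.eps (Tmap M.X Z.X (f.comp M.eta) t) = f t := by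
  have : Z.eps.comp (Tmap M.X Z.X (f.comp M.eta)) = f := by
    refine PT.hom_ext fun c x => ?_
    have h2 := plusExt_comm (Tact M.X) Z.act f hf c (M.eta x)
    have h3 : plusExt (Tact M.X) c (M.eta x) = PT.tmul (Plus A) M.X c x := by
      obtain ⟨c, a, rfl⟩ := plus_cases c
      simp [LMod.eta]
    rw [h3] at h2
    simp [h2]
  exact congr($this t)

theorem rlift_T {Z : BiMod A} (h : RLift Z) : RLift Z.T := by
  intro Y W φ σ hφ hσ f hf
  obtain ⟨g, hg, hg'⟩ := h (homR (Plus A) Y) (homR (Plus A) W) (compL ℂ (Plus A) Y.X W.X φ)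
    (compL ℂ (Plus A) W.X Y.X σ) (fun a x => by ext b; simp [hφ]) (fun x => by ext b; simp [hσ])
    (curry (Plus A) Z.X W.X f) (fun a x => by
      ext b
      have := hf a (PT.tmul (Plus A) Z.X b x)
      simpa using this)
  refine ⟨PT.lift g.flip, fun a t => ?_, fun t => ?_⟩
  · have : (PT.lift g.flip).comp (Tmap Z.X Z.X (Z.ract a)) = (Y.ract a).comp (PT.lift g.flip) :=
      PT.hom_ext fun b x => by simp [hg]
    exact congr($this t)
  · have : φ.comp (PT.lift g.flip) = f := PT.hom_ext fun b x => by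
      have := congr($(hg' x) b)
      simpa using this
    exact congr($this t)

theorem rlift_K {Z : BiMod A} (h : RLift Z) : RLift Z.K := by
  intro Y W φ σ hφ hσ f hf
  obtain ⟨g, hg, hg'⟩ := rlift_T h Y W φ σ hφ hσ
    (f.comp (kr Z.toLMod.eps Z.toLMod.eta Z.toLMod.eps_eta)) (fun a t => by
      change f (kr _ _ _ (Tmap Z.X Z.X (Z.ract a) t)) = W.ract a (f (kr _ _ _ t))
      rw [kr_Tmap (Z.ract_hom a), ← hf]
      rfl)
  refine ⟨g.comp (kj Z.toLMod.eps), fun a x => ?_, fun x => ?_⟩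
  · change g (kj _ (Kmap Z.toLMod Z.toLMod (Z.ract a) x)) = Y.ract a (g (kj _ x))
    rw [kj_Kmap (Z.ract_hom a), ← hg]
    rfl
  · change φ (g (kj _ x)) = f x
    rw [hg']
    change f (kr _ _ _ (kj _ x)) = f x
    rw [kr_kj]

theorem lift_Tb {Z : BiMod A} (h : RLift Z) : (biCat A).Lift Z.T := by
  intro Y W φ σ hφ hσ f hf
  obtain ⟨g, hg, hg'⟩ := h Y W φ σ hφ.2 hσ (f.comp Z.toLMod.eta) (fun a x => by
    change f (Z.toLMod.eta (Z.ract a x)) = W.ract a (f (Z.toLMod.eta x))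
    rw [← hf.2, ← Tmap_eta]
    rfl)
  refine ⟨Y.toLMod.eps.comp (Tmap Z.X Y.X g), ⟨fun a t => ?_, fun a t => ?_⟩, fun t => ?_⟩
  · change Y.toLMod.eps (Tmap Z.X Y.X g (Tact Z.X a t)) = Y.act a (Y.toLMod.eps (Tmap Z.X Y.X g t))
    rw [Tmap_Tact]
    exact Y.toLMod.eps_hom a _
  · change Y.toLMod.eps (Tmap Z.X Y.X g (Tmap Z.X Z.X (Z.ract a) t)) =
      Y.ract a (Y.toLMod.eps (Tmap Z.X Y.X g t))
    have : g.comp (Z.ract a) = (Y.ract a).comp g := by
      ext x
      exact hg a x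
    rw [← Tmap_comp, this, Tmap_comp, eps_Tmap (Y.ract_hom a)]
  · change φ (Y.toLMod.eps (Tmap Z.X Y.X g t)) = f t
    have : φ.comp g = f.comp Z.toLMod.eta := by
      ext x
      exact hg' x
    rw [← eps_Tmap (M := Y.toLMod) (N := W.toLMod) hφ.1, ← Tmap_comp, this]
    exact free_ext (M := Z.toLMod) (Z := W.toLMod) hf.1 t

theorem syz_bi : ∀ (n : ℕ) (Z : BiMod A), RLift Z → (biCat A).Syz n Z (BiMod.K^[n] Z)
  | 0, _, _ => rfl
  | n + 1, Z, h => ⟨Z.K, Z.T,
      ⟨BiMod.kerSES Z.T Z Z.toLMod.eps Z.toLMod.eta Z.eps_hom Z.toLMod.eps_eta⟩, lift_Tb h,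
      syz_bi n Z.K (rlift_K h)⟩

theorem rlift_iter : ∀ (n : ℕ) (Z : BiMod A), RLift Z → RLift (BiMod.K^[n] Z)
  | 0, _, h => h
  | n + 1, Z, h => rlift_iter n Z.K (rlift_K h)

theorem Tmap_sot {ι : Type*} {l : Filter ι} {X Y : Type u} [NormedAddCommGroup X]
    [NormedSpace ℂ X] [NormedAddCommGroup Y] [NormedSpace ℂ Y] (g : ι → X →L[ℂ] Y) (C : ℝ)
    (hC : ∀ i, ‖g i‖ ≤ C) (h : ∀ x, Tendsto (fun i => g i x) l (𝓝 0)) (t : PT (Plus A) X) :
    Tendsto (fun i => Tmap X Y (g i) t) l (𝓝 0) := by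
  refine PT.tendsto_zero_of_tmul (fun i => Tmap X Y (g i)) (‖Tmap (A := A) X Y‖ * C)
    (fun i => ((Tmap X Y).le_opNorm _).trans (by gcongr; exact hC i)) (fun b x => ?_) t
  have := ((PT.tmul (Plus A) Y b).continuous.tendsto 0).comp (h x)
  simpa [Function.comp_def] using this

variable [CompleteSpace A]

theorem plus_act (a : A) (b : Plus A) : (plusBiMod A).act a b = incl A a * b := rfl

theorem plus_ract (a : A) (b : Plus A) : (plusBiMod A).ract a b = b * incl A a := rfl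

theorem rlift_plus : RLift (plusBiMod A) := by
  intro Y W φ σ hφ hσ f hf
  refine ⟨(plusExt Y.ract).flip (σ (f (1 : Plus A))), fun a x => ?_, fun b => ?_⟩
  · exact plusExt_mul_incl' Y.ract Y.ract_mul a x _
  · change φ (plusExt Y.ract b (σ (f (1 : Plus A)))) = f b
    rw [plusExt_comm Y.ract W.ract φ hφ, hσ, ← plusExt_comm (plusBiMod A).ract W.ract f hf]
    congr 1
    obtain ⟨c, a, rfl⟩ := plus_cases b
    rw [map_add, map_smul, add_apply, smul_apply, plusExt_one, plusExt_incl, plus_ract, one_mul]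
    rfl

section RigidTransfer

variable {Y U : Type u} [NormedAddCommGroup U] [NormedSpace ℂ U] (R : Rigid (Plus A) Y U)

/-- The rigid module as a left `A`-module. -/
abbrev Rigid.toLMod : LMod A where
  X := R.M
  act := R.act.comp (incl A)
  act_mul := fun a b x => by simp [incl_mul, R.act_mul]

/-- The data relating a syzygy of `A₊` to the corresponding syzygy of the rigid module. -/
structure Tr (Z : BiMod A) (X : LMod A) where
  H : R.M →L[ℂ] Z.X →L[ℂ] X.X
  G : (R.M →L[ℂ] Plus A) →L[ℂ] X.X →L[ℂ] Z.X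
  H_hom : ∀ m, (leftCat A).IsHom Z.toLMod X (H m)
  H_act : ∀ a m, H (R.act (incl A a) m) = (H m).comp (Z.ract a)
  G_hom : ∀ ξ, (leftCat A).IsHom X Z.toLMod (G (R.π ξ))
  G_act : ∀ a ξ, G ((RM (incl A a)).comp (R.π ξ)) = (Z.ract a).comp (G (R.π ξ))
  GH : ∀ ξ z, G (R.π ξ) (H (R.e ξ) z) = z
  sot : ∀ p : R.D → R.M →L[ℂ] Plus A, (∀ ζ, ‖p ζ‖ ≤ 1) →
    (∀ m, Tendsto (fun ζ => p ζ m) cofinite (𝓝 0)) →
    ∀ x, Tendsto (fun ζ => G (p ζ) x) cofinite (𝓝 0)

def Tr.base : Tr R (plusBiMod A) R.toLMod where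
  H := R.act.flip
  G := ContinuousLinearMap.id ℂ (R.M →L[ℂ] Plus A)
  H_hom := fun m a b => R.act_mul _ _ _
  H_act := fun a m => by
    ext b
    exact (R.act_mul _ _ _).symm
  G_hom := fun ξ a m => R.π_act ξ _ m
  G_act := fun a ξ => rfl
  GH := fun ξ z => by
    change R.π ξ (R.act z (R.e ξ)) = z
    rw [R.π_act, R.π_e, mul_one]
  sot := fun p _ h => h

variable {R}

def Tr.step {Z : BiMod A} {X : LMod A} (τ : Tr R Z X) : Tr R Z.K X.K where
  H := (Kmap Z.toLMod X).comp τ.H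
  G := (Kmap X Z.toLMod).comp τ.G
  H_hom := fun m => Kmap_hom (τ.H_hom m)
  H_act := fun a m => by
    ext x
    change Kmap Z.toLMod X (τ.H (R.act (incl A a) m)) x = _
    rw [τ.H_act, Kmap_comp (Z.ract_hom a)]
    rfl
  G_hom := fun ξ => Kmap_hom (τ.G_hom ξ)
  G_act := fun a ξ => by
    ext x
    change Kmap X Z.toLMod (τ.G ((RM (incl A a)).comp (R.π ξ))) x = _
    rw [τ.G_act, Kmap_comp (τ.G_hom ξ)]
    rfl
  GH := fun ξ z => by
    change Kmap X Z.toLMod (τ.G (R.π ξ)) (Kmap Z.toLMod X (τ.H (R.e ξ)) z) = z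
    have : (τ.G (R.π ξ)).comp (τ.H (R.e ξ)) = ContinuousLinearMap.id ℂ Z.X := by
      ext z
      exact τ.GH ξ z
    rw [← Kmap_comp (τ.H_hom _), this, Kmap_id]
  sot := fun p hp h x => by
    have h1 := Tmap_sot (A := A) (fun ζ => τ.G (p ζ)) (‖τ.G‖ * 1)
      (fun ζ => (τ.G.le_opNorm _).trans (by gcongr; exact hp ζ)) (τ.sot p hp h) (kj X.eps x)
    have := ((kr Z.toLMod.eps Z.toLMod.eta Z.toLMod.eps_eta).continuous.tendsto 0).comp h1
    rw [map_zero] at this
    exact this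

def Tr.iter : ∀ (n : ℕ) {Z : BiMod A} {X : LMod A}, Tr R Z X → Tr R (BiMod.K^[n] Z) (LMod.K^[n] X)
  | 0, _, _, τ => τ
  | n + 1, _, _, τ => Tr.iter n τ.step

end RigidTransfer

omit [CompleteSpace A] in
theorem projective_of_tr {Z : BiMod A} {X : LMod A} (R : Rigid (Plus A) Z.X (PT (Plus A) Z.X))
    (τ : Tr R Z X) (hZ : RLift Z) (hX : (leftCat A).Projective X) : (biCat A).Projective Z := by
  obtain ⟨s, hs, hs'⟩ := hX X.T X.eps X.eps_hom ⟨X.eta, by ext x; exact X.eps_eta x⟩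
  have hs'' : ∀ x, X.eps (s x) = x := fun x => congr($hs' x)
  obtain ⟨ξ, hξ⟩ := R.rigid
    (fun y => ((Tmap X.X Z.X).comp τ.G).flip.comp (s.comp (τ.H.flip y))) (fun y x p hp h =>
      Tmap_sot (A := A) (fun ζ => τ.G (p ζ)) (‖τ.G‖ * 1)
        (fun ζ => (τ.G.le_opNorm _).trans (by gcongr; exact hp ζ)) (τ.sot p hp h) _)
  refine ModCat.projective_of_lift (nice_bi A) (ModCat.lift_of_retract (nice_bi A) (lift_Tb hZ)
    ((Tmap X.X Z.X (τ.G (R.π ξ))).comp (s.comp (τ.H (R.e ξ)))) Z.toLMod.eps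
    ⟨fun a z => ?_, fun a z => ?_⟩ Z.eps_hom fun z => ?_)
  · change Tmap X.X Z.X (τ.G (R.π ξ)) (s (τ.H (R.e ξ) (Z.act a z))) =
      Tact Z.X a (Tmap X.X Z.X (τ.G (R.π ξ)) (s (τ.H (R.e ξ) z)))
    rw [τ.H_hom, hs, ← Tmap_Tact]
  · have h1 : Tmap X.X Z.X (τ.G (R.π ξ)) (s (τ.H (R.act (incl A a) (R.e ξ)) z)) =
        Tmap X.X Z.X (τ.G ((RM (incl A a)).comp (R.π ξ))) (s (τ.H (R.e ξ) z)) := hξ z (incl A a)
    rw [τ.H_act, τ.G_act, Tmap_comp] at h1
    exact h1
  · change Z.toLMod.eps (Tmap X.X Z.X (τ.G (R.π ξ)) (s (τ.H (R.e ξ) z))) = z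
    rw [eps_Tmap (τ.G_hom ξ), hs'', τ.GH]

theorem db_le_dg : db A ≤ dg A := by
  rcases eq_or_ne (dg A) ⊤ with h | h
  · rw [h]
    exact le_top
  obtain ⟨n, hn⟩ := ENat.ne_top_iff_exists.1 h
  obtain ⟨R⟩ := nonempty_rigid (Plus A) (BiMod.K^[n] (plusBiMod A)).X
    (PT (Plus A) (BiMod.K^[n] (plusBiMod A)).X) norm_one_plus
  have h1 : (leftCat A).dh R.toLMod ≤ n := by
    rw [hn]
    exact le_iSup (fun M : LMod A => (leftCat A).dh M) R.toLMod
  have h2 := (ModCat.dh_le_iff_projective (nice_left A) (syz_left n R.toLMod)).1 h1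
  have h3 := projective_of_tr R (Tr.iter n (Tr.base R)) (rlift_iter n _ rlift_plus) h2
  rw [← hn]
  exact (ModCat.dh_le_iff_projective (nice_bi A) (syz_bi n _ rlift_plus)).2 h3

/-- The data expressing that `X` is the tensor product over `A` of `Z` and `M`. -/
structure Ub (M : LMod A) (Z : BiMod A) (X : LMod A) where
  β : M.X →L[ℂ] Z.X →L[ℂ] X.X
  β_hom : ∀ m, (leftCat A).IsHom Z.toLMod X (β m)
  β_act : ∀ a m, β (M.act a m) = (β m).comp (Z.ract a)
  fac : ∀ (W : Type u) [NormedAddCommGroup W] [NormedSpace ℂ W] [CompleteSpace W]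
    (γ : M.X →L[ℂ] Z.X →L[ℂ] W), (∀ a m z, γ (M.act a m) z = γ m (Z.ract a z)) →
      ∃ g : X.X →L[ℂ] W, ∀ m z, g (β m z) = γ m z
  uniq : ∀ (W : Type u) [NormedAddCommGroup W] [NormedSpace ℂ W] (g : X.X →L[ℂ] W),
    (∀ m z, g (β m z) = 0) → g = 0

def Ub.base (M : LMod A) : Ub M (plusBiMod A) M where
  β := (plusExt M.act).flip
  β_hom := fun m a b => plusExt_incl_mul M.act M.act_mul a b m
  β_act := fun a m => by
    ext b
    exact (plusExt_mul_incl M.act M.act_mul a b m).symm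
  fac := fun W _ _ _ γ hγ => ⟨γ.flip (1 : Plus A), fun m b => by
    change γ (plusExt M.act b m) (1 : Plus A) = γ m b
    obtain ⟨c, a, rfl⟩ := plus_cases b
    rw [map_add, map_smul, add_apply, smul_apply, plusExt_one, plusExt_incl, map_add, map_smul,
      add_apply, smul_apply, hγ, plus_ract, one_mul]
    exact ((γ m).map_add (c • (1 : Plus A)) (incl A a)).trans
      (congrArg (· + γ m (incl A a)) ((γ m).map_smul c (1 : Plus A))) |>.symm⟩
  uniq := fun W _ _ g hg => by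
    ext m
    have := hg m (1 : Plus A)
    change g (plusExt M.act 1 m) = 0 at this
    rwa [plusExt_one] at this

omit [CompleteSpace A] in
theorem Ub.facT {M : LMod A} {Z : BiMod A} {X : LMod A} (υ : Ub M Z X) (W : Type u)
    [NormedAddCommGroup W] [NormedSpace ℂ W] [CompleteSpace W]
    (γ : M.X →L[ℂ] PT (Plus A) Z.X →L[ℂ] W)
    (hγ : ∀ a m t, γ (M.act a m) t = γ m (Tmap Z.X Z.X (Z.ract a) t)) :
    ∃ g : PT (Plus A) X.X →L[ℂ] W, ∀ m t, g (Tmap Z.X X.X (υ.β m) t) = γ m t := by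
  obtain ⟨g, hg⟩ := υ.fac (Plus A →L[ℂ] W) ((curry (Plus A) Z.X W).comp γ) (fun a m z => by
    ext b
    simp [hγ])
  refine ⟨PT.lift g.flip, fun m t => ?_⟩
  have : (PT.lift g.flip).comp (Tmap Z.X X.X (υ.β m)) = γ m :=
    PT.hom_ext fun b z => by simp [hg]
  exact congr($this t)

omit [CompleteSpace A] in
theorem Ub.uniqT {M : LMod A} {Z : BiMod A} {X : LMod A} (υ : Ub M Z X) (W : Type u)
    [NormedAddCommGroup W] [NormedSpace ℂ W] (g : PT (Plus A) X.X →L[ℂ] W)
    (hg : ∀ m t, g (Tmap Z.X X.X (υ.β m) t) = 0) : g = 0 := by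
  have := υ.uniq (Plus A →L[ℂ] W) (curry (Plus A) X.X W g) (fun m z => by
    ext b
    have := hg m (PT.tmul (Plus A) Z.X b z)
    simpa using this)
  refine PT.hom_ext fun b x => ?_
  have h2 := congr($this x b)
  simpa using h2

def Ub.step {M : LMod A} {Z : BiMod A} {X : LMod A} (υ : Ub M Z X) : Ub M Z.K X.K where
  β := (Kmap Z.toLMod X).comp υ.β
  β_hom := fun m => Kmap_hom (υ.β_hom m)
  β_act := fun a m => by
    ext x
    change Kmap Z.toLMod X (υ.β (M.act a m)) x = _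
    rw [υ.β_act, Kmap_comp (Z.ract_hom a)]
    rfl
  fac := fun W _ _ _ γ hγ => by
    obtain ⟨g, hg⟩ := υ.facT W (((compL ℂ (PT (Plus A) Z.X) (Ker Z.toLMod.eps) W).flip
      (kr Z.toLMod.eps Z.toLMod.eta Z.toLMod.eps_eta)).comp γ) (fun a m t => by
        change γ (M.act a m) (kr _ _ _ t) = γ m (kr _ _ _ (Tmap Z.X Z.X (Z.ract a) t))
        rw [hγ, kr_Tmap (Z.ract_hom a)]
        rfl)
    refine ⟨g.comp (kj X.eps), fun m z => ?_⟩
    change g (kj X.eps (Kmap Z.toLMod X (υ.β m) z)) = γ m z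
    rw [kj_Kmap (υ.β_hom m), hg]
    change γ m (kr _ _ _ (kj _ z)) = γ m z
    rw [kr_kj]
  uniq := fun W _ _ g hg => by
    have := υ.uniqT W (g.comp (kr X.eps X.eta X.eps_eta)) (fun m t => by
      change g (kr _ _ _ (Tmap Z.X X.X (υ.β m) t)) = 0
      rw [kr_Tmap (υ.β_hom m)]
      exact hg m _)
    ext x
    have h2 : g (kr X.eps X.eta X.eps_eta (kj X.eps x)) = 0 := congr($this (kj X.eps x))
    rwa [kr_kj] at h2

def Ub.iter {M : LMod A} :
    ∀ (n : ℕ) {Z : BiMod A} {X : LMod A}, Ub M Z X → Ub M (BiMod.K^[n] Z) (LMod.K^[n] X)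
  | 0, _, _, υ => υ
  | n + 1, _, _, υ => Ub.iter n υ.step

omit [CompleteSpace A] in
theorem projective_of_ub {M : LMod A} {Z : BiMod A} {X : LMod A} (υ : Ub M Z X)
    (hZ : (biCat A).Projective Z) : (leftCat A).Projective X := by
  obtain ⟨g, hg, hg'⟩ := ModCat.lift_of_projective (nice_bi A) hZ (homBi M X.T) (homBi M X)
    (compL ℂ M.X (PT (Plus A) X.X) X.X X.eps) (compL ℂ M.X X.X (PT (Plus A) X.X) X.eta)
    ⟨fun a T => by ext m; exact X.eps_hom a _, fun a T => rfl⟩
    (fun T => by ext m; exact X.eps_eta _) υ.β.flip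
    ⟨fun a z => by ext m; exact υ.β_hom m a z, fun a z => by
      ext m
      change υ.β m (Z.ract a z) = υ.β (M.act a m) z
      rw [υ.β_act]
      rfl⟩
  obtain ⟨s, hs⟩ := υ.fac (PT (Plus A) X.X) (ContinuousLinearMap.flip g) (fun a m z =>
    (congr($(hg.2 a z) m)).symm)
  refine ModCat.projective_of_lift (nice_left A) (ModCat.lift_of_retract (nice_left A)
    (lift_T X) s X.eps (fun a x => ?_) X.eps_hom fun x => ?_)
  · have := υ.uniq _ (s.comp (X.act a) - (Tact X.X a).comp s) (fun m z => by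
      change s (X.act a (υ.β m z)) - Tact X.X a (s (υ.β m z)) = 0
      rw [← υ.β_hom, hs, hs, sub_eq_zero]
      exact congr($(hg.1 a z) m))
    exact sub_eq_zero.1 congr($this x)
  · have := υ.uniq _ (X.eps.comp s - ContinuousLinearMap.id ℂ X.X) (fun m z => by
      change X.eps (s (υ.β m z)) - υ.β m z = 0
      rw [hs, sub_eq_zero]
      exact congr($(hg' z) m))
    exact sub_eq_zero.1 congr($this x)

theorem dg_le_db : dg A ≤ db A := by
  rcases eq_or_ne (db A) ⊤ with h | h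
  · rw [h]
    exact le_top
  obtain ⟨n, hn⟩ := ENat.ne_top_iff_exists.1 h
  have h1 := (ModCat.dh_le_iff_projective (nice_bi A) (syz_bi n _ rlift_plus)).1 hn.ge
  rw [← hn]
  refine iSup_le fun M => ?_
  exact (ModCat.dh_le_iff_projective (nice_left A) (syz_left n M)).2
    (projective_of_ub (Ub.iter n (Ub.base M)) h1)

end

end Pool.Agent.Lib.MP_aa5e40_an
end

-- part Pool.Agent.Lib.MP_aa5e40_an.Bridge
section

/-!
Comparison of the definitions used in the statement with the bundled ones used in the proof.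
-/

set_option autoImplicit false
set_option maxSynthPendingDepth 3

namespace Pool.Agent.Lib.MP_aa5e40_an

universe u

noncomputable section

/-- The bundled version of a category of the statement. -/
abbrev oldCat (C : St.ModCat.{u}) : ModCat.{u} where
  Obj := C.Obj
  X := fun o => (C.sp o).X
  IsHom := fun o o' f => C.Equivariant o o' f

theorem st_projective_iff (C : St.ModCat.{u}) (P : C.Obj) :
    C.Projective P ↔ (oldCat C).Projective P := by
  constructor
  · rintro h Y φ hφ ⟨r, hr⟩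
    obtain ⟨s, hs, hs'⟩ := h Y φ ⟨φ.isBoundedLinearMap, hφ⟩
      ⟨r, r.isBoundedLinearMap, fun x => congr($hr x)⟩
    exact ⟨IsBoundedLinearMap.toContinuousLinearMap s hs.1, hs.2, by ext x; exact hs' x⟩
  · rintro h Y φ hφ ⟨r, hr, hr'⟩
    obtain ⟨s, hs, hs'⟩ := h Y (IsBoundedLinearMap.toContinuousLinearMap φ hφ.1) hφ.2
      ⟨IsBoundedLinearMap.toContinuousLinearMap r hr, by ext x; exact hr' x⟩
    exact ⟨s, ⟨s.isBoundedLinearMap, hs⟩, fun x => congr($hs' x)⟩

theorem st_dh_eq (C : St.ModCat.{u}) (M : C.Obj) : C.dh M = (oldCat C).dh M := by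
  unfold St.ModCat.dh ModCat.dh
  congr 1
  ext m
  refine exists_congr fun n => and_congr_right fun _ => ⟨?_, ?_⟩
  · rintro ⟨R, hR⟩
    obtain ⟨t, s, ht, hs, h1, h2, h3⟩ := R.admissible
    exact ⟨
      { P := R.P
        proj := fun k => (st_projective_iff C _).1 (R.proj k)
        aug := IsBoundedLinearMap.toContinuousLinearMap R.aug R.aug_hom.1
        d := fun k => IsBoundedLinearMap.toContinuousLinearMap (R.d k) (R.d_hom k).1
        aug_hom := R.aug_hom.2
        d_hom := fun k => (R.d_hom k).2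
        aug_d := by ext x; exact R.aug_d x
        d_d := fun k => by ext x; exact R.d_d k x
        admissible := ⟨IsBoundedLinearMap.toContinuousLinearMap t ht,
          fun k => IsBoundedLinearMap.toContinuousLinearMap (s k) (hs k),
          by ext x; exact h1 x, by ext x; exact h2 x, fun k => by ext x; exact h3 k x⟩ }, hR⟩
  · rintro ⟨R, hR⟩
    obtain ⟨t, s, h1, h2, h3⟩ := R.admissible
    exact ⟨
      { P := R.P
        proj := fun k => (st_projective_iff C _).2 (R.proj k)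
        aug := R.aug
        d := fun k => R.d k
        aug_hom := ⟨R.aug.isBoundedLinearMap, R.aug_hom⟩
        d_hom := fun k => ⟨(R.d k).isBoundedLinearMap, R.d_hom k⟩
        aug_d := fun x => congr($R.aug_d x)
        d_d := fun k x => congr($(R.d_d k) x)
        admissible := ⟨t, fun k => s k, t.isBoundedLinearMap, fun k => (s k).isBoundedLinearMap,
          fun x => congr($h1 x), fun x => congr($h2 x), fun k x => congr($(h3 k) x)⟩ }, hR⟩

/-- Reindexing the objects of a category. -/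
abbrev ModCat.comap (C : ModCat.{u}) (O : Type (u + 1)) (G : O → C.Obj) : ModCat.{u} where
  Obj := O
  X := fun o => C.X (G o)
  IsHom := fun o o' => C.IsHom (G o) (G o')

theorem ModCat.comap_projective (C : ModCat.{u}) {O : Type (u + 1)} {G : O → C.Obj}
    (hG : Function.Surjective G) (P : O) : (C.comap O G).Projective P ↔ C.Projective (G P) := by
  constructor
  · intro h Y
    obtain ⟨Y, rfl⟩ := hG Y
    exact h Y
  · intro h Y
    exact h (G Y)

theorem ModCat.comap_dh (C : ModCat.{u}) {O : Type (u + 1)} {G : O → C.Obj}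
    (hG : Function.Surjective G) (M : O) : (C.comap O G).dh M = C.dh (G M) := by
  unfold ModCat.dh
  congr 1
  ext m
  refine exists_congr fun n => and_congr_right fun _ => ⟨?_, ?_⟩
  · rintro ⟨R, hR⟩
    exact ⟨
      { P := fun k => G (R.P k)
        proj := fun k => (C.comap_projective hG _).1 (R.proj k)
        aug := R.aug
        d := R.d
        aug_hom := R.aug_hom
        d_hom := R.d_hom
        aug_d := R.aug_d
        d_d := R.d_d
        admissible := R.admissible }, hR⟩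
  · rintro ⟨⟨P, proj, aug, d, h1, h2, h3, h4, h5⟩, hR⟩
    obtain ⟨P', rfl⟩ : ∃ P' : ℕ → O, (fun k => G (P' k)) = P := by
      choose P' hP' using fun k => hG (P k)
      exact ⟨P', funext hP'⟩
    exact ⟨
      { P := P'
        proj := fun k => (C.comap_projective hG _).2 (proj k)
        aug := aug
        d := d
        aug_hom := h1
        d_hom := h2
        aug_d := h3
        d_d := h4
        admissible := h5 }, hR⟩

variable {A : Type u} [NonUnitalNormedRing A] [NormedSpace ℂ A]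

abbrev oldL (M : St.LMod A) : LMod A where
  X := M.sp.X
  act := IsBoundedBilinearMap.toContinuousLinearMap M.act_bdd
  act_mul := M.act_mul

abbrev oldB (M : St.BiMod A) : BiMod A where
  X := M.sp.X
  act := IsBoundedBilinearMap.toContinuousLinearMap M.act_bdd
  act_mul := M.act_mul
  ract := IsBoundedBilinearMap.toContinuousLinearMap M.ract_bdd
  ract_mul := M.ract_mul
  act_ract := M.act_ract

theorem toOld_surj_left : Function.Surjective (oldL (A := A)) := fun M =>
  ⟨{ sp := ⟨M.X⟩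
     act := fun a x => M.act a x
     act_bdd := M.act.isBoundedBilinearMap
     act_mul := M.act_mul }, rfl⟩

theorem toOld_surj_bi : Function.Surjective (oldB (A := A)) := fun M =>
  ⟨{ sp := ⟨M.X⟩
     act := fun a x => M.act a x
     act_bdd := M.act.isBoundedBilinearMap
     act_mul := M.act_mul
     ract := fun a x => M.ract a x
     ract_bdd := M.ract.isBoundedBilinearMap
     ract_mul := M.ract_mul
     act_ract := M.act_ract }, rfl⟩

theorem dh_left (M : St.LMod A) : (St.leftCat A).dh M = (leftCat A).dh (oldL M) :=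
  (st_dh_eq (St.leftCat A) M).trans ((leftCat A).comap_dh toOld_surj_left M)

theorem dh_bi (M : St.BiMod A) : (St.biCat A).dh M = (biCat A).dh (oldB M) :=
  (st_dh_eq (St.biCat A) M).trans ((biCat A).comap_dh toOld_surj_bi M)

theorem dg_eq : St.dg A = dg A := by
  unfold St.dg dg
  simp only [dh_left]
  exact toOld_surj_left.iSup_comp (fun M : LMod A => (leftCat A).dh M)

variable [IsScalarTower ℂ A A] [SMulCommClass ℂ A A] [CompleteSpace A]

theorem db_eq : St.db A = db A := by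
  unfold St.db db
  rw [dh_bi]
  rfl

end

end Pool.Agent.Lib.MP_aa5e40_an
end
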